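import Pool.Agent.MP_1e9c11_gt.H98.Cone

/-! The Minkowski asymmetry of a convex body of width at least one, and its four contact points. -/

open MeasureTheory Set Matrix

noncomputable section

namespace Pool.Agent.MP_1e9c11_gt.H98

/-- The width in every direction is at least one. -/
def Wid (K : Set V3) : Prop := ∀ u : V3, ∃ x ∈ K, ∃ y ∈ K, Real.sqrt (u ⬝ᵥ u) ≤ u ⬝ᵥ (x - y)

/-- Balanced quadruples of normals with total support at most one, with four points of `K`. -/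
def Feas (K : Set V3) : Set ((Fin 4 → V3) × (Fin 4 → V3)) :=
  {q | ∑ i, q.1 i = 0 ∧ (∀ i, q.2 i ∈ K) ∧
    ∀ x : Fin 4 → V3, (∀ i, x i ∈ K) → ∑ i, q.1 i ⬝ᵥ x i ≤ 1}

theorem abs_le_sqrt_dot (u : V3) (k : Fin 3) : |u k| ≤ Real.sqrt (u ⬝ᵥ u) := by
  apply Real.abs_le_sqrt
  simp only [dotProduct, Fin.sum_univ_three]
  fin_cases k <;> simp <;> nlinarith [sq_nonneg (u 0), sq_nonneg (u 1), sq_nonneg (u 2)]

theorem norm_le_sqrt_dot (u : V3) : ‖u‖ ≤ Real.sqrt (u ⬝ᵥ u) :=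
  (pi_norm_le_iff_of_nonneg (Real.sqrt_nonneg _)).2 fun k => abs_le_sqrt_dot u k

theorem single_le {K : Set V3} (hW : Wid K) {u : Fin 4 → V3} (hu : ∑ i, u i = 0) {m : ℝ}
    (hm : ∀ x : Fin 4 → V3, (∀ i, x i ∈ K) → ∑ i, u i ⬝ᵥ x i ≤ m) (i : Fin 4) :
    Real.sqrt (u i ⬝ᵥ u i) ≤ m := by
  obtain ⟨x, hx, y, hy, h⟩ := hW (u i)
  have h1 := hm (fun j => if j = i then x else y) (fun j => by split_ifs <;> assumption)
  have h2 : ∑ j, u j ⬝ᵥ (if j = i then x else y) = u i ⬝ᵥ (x - y) := by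
    have : ∀ j, u j ⬝ᵥ (if j = i then x else y) =
        (if j = i then u i ⬝ᵥ (x - y) else 0) + u j ⬝ᵥ y := by
      intro j
      split_ifs with hj
      · rw [hj, dotProduct_sub]; ring
      · ring
    simp_rw [this]
    rw [Finset.sum_add_distrib, ← sum_dotProduct, hu]
    simp
  linarith

theorem feas_compact {K : Set V3} (hK : IsCompact K) (hW : Wid K) : IsCompact (Feas K) := by
  have h1 : IsCompact ((Metric.closedBall (0 : Fin 4 → V3) 1) ×ˢ (univ.pi fun _ : Fin 4 => K)) :=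
    (isCompact_closedBall _ _).prod (isCompact_univ_pi fun _ => hK)
  refine h1.of_isClosed_subset ?_ ?_
  · have e : Feas K = {q | ∑ i, q.1 i = 0} ∩ ((⋂ i, {q | q.2 i ∈ K}) ∩
        ⋂ x : Fin 4 → V3, ⋂ _ : ∀ i, x i ∈ K, {q | ∑ i, q.1 i ⬝ᵥ x i ≤ 1}) := by
      ext q
      simp [Feas]
    rw [e]
    refine (isClosed_eq (by fun_prop) continuous_const).inter (IsClosed.inter ?_ ?_)
    · exact isClosed_iInter fun i => hK.isClosed.preimage (by fun_prop)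
    · exact isClosed_iInter fun x => isClosed_iInter fun _ =>
        isClosed_le (by fun_prop) continuous_const
  · rintro q ⟨h1, h2, h3⟩
    refine ⟨?_, fun i _ => h2 i⟩
    rw [mem_closedBall_zero_iff, pi_norm_le_iff_of_nonneg zero_le_one]
    exact fun i => (norm_le_sqrt_dot _).trans (single_le hW h1 h3 i)

theorem functional_eq (f : (Fin 4 → V3) →L[ℝ] ℝ) :
    ∃ u : Fin 4 → V3, ∀ w, f w = ∑ i, u i ⬝ᵥ w i := by
  refine ⟨fun i k => f (Pi.single i (Pi.single k 1)), fun w => ?_⟩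
  have e : w = ∑ i, ∑ k, w i k • (Pi.single i (Pi.single k (1 : ℝ)) : Fin 4 → V3) := by
    funext i k
    simp [Finset.sum_apply, Pi.single_apply, apply_ite (fun g : V3 => g k)]
  conv_lhs => rw [e]
  simp only [map_sum, map_smul, smul_eq_mul, dotProduct]
  exact Finset.sum_congr rfl fun i _ => Finset.sum_congr rfl fun k _ => mul_comm _ _

theorem four_meet {K : Set V3} (hK : IsCompact K) (hc : Convex ℝ K) (hW : Wid K) {s : ℝ}
    (hs : 0 < s) (hσ : ∀ q ∈ Feas K, -∑ i, q.1 i ⬝ᵥ q.2 i ≤ s) (p : Fin 4 → V3)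
    (hp : ∀ i, p i ∈ K) : ∃ c : V3, ∀ i, ∃ y ∈ K, c = p i + s • y := by
  by_contra hno
  set D : Set (Fin 4 → V3) := (fun x => p + s • x) '' (univ.pi fun _ : Fin 4 => K) with hD
  set L : Set (Fin 4 → V3) := range fun z : V3 => fun _ : Fin 4 => z with hL
  have hDc : IsCompact D := (isCompact_univ_pi fun _ => hK).image (by fun_prop)
  have hDv : Convex ℝ D := by
    have := ((convex_pi (s := univ) (t := fun _ : Fin 4 => K) fun _ _ => hc).smul s).translate p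
    rwa [← image_smul, image_image] at this
  have hLv : Convex ℝ L := by
    rintro _ ⟨z, rfl⟩ _ ⟨z', rfl⟩ a b _ _ _
    exact ⟨a • z + b • z', rfl⟩
  have hLc : IsClosed L := by
    have e : L = ⋂ i, {w : Fin 4 → V3 | w i = w 0} := by
      ext w
      simp only [hL, mem_range, mem_iInter, mem_ofPred_eq]
      constructor
      · rintro ⟨z, rfl⟩ i; rfl
      · intro h; exact ⟨w 0, funext fun i => (h i).symm⟩
    rw [e]
    exact isClosed_iInter fun i => isClosed_eq (by fun_prop) (by fun_prop)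
  have hdis : Disjoint D L := by
    rw [Set.disjoint_left]
    rintro _ ⟨x, hx, rfl⟩ ⟨z, hz⟩
    exact hno ⟨z, fun i => ⟨x i, hx i trivial, congrFun hz i⟩⟩
  obtain ⟨f, a, b, h1, hab, h2⟩ := geometric_hahn_banach_compact_closed hDv hDc hLv hLc hdis
  obtain ⟨u, hu⟩ := functional_eq f
  have hL0 : ∀ z : V3, b < (∑ i, u i) ⬝ᵥ z := by
    intro z
    have := h2 _ ⟨z, rfl⟩
    rwa [hu, ← sum_dotProduct] at this
  have hb : b < 0 := by simpa using hL0 0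
  have hu0 : ∑ i, u i = 0 := by
    by_contra hne
    have hpos : 0 < (∑ i, u i) ⬝ᵥ (∑ i, u i) :=
      lt_of_le_of_ne (Finset.sum_nonneg fun i _ => mul_self_nonneg _)
        (fun h => hne (dotProduct_self_eq_zero.1 h.symm))
    have := hL0 ((b / ((∑ i, u i) ⬝ᵥ (∑ i, u i))) • ∑ i, u i)
    rw [dotProduct_smul, smul_eq_mul, div_mul_cancel₀ _ hpos.ne'] at this
    exact lt_irrefl _ this
  choose T hT hT' using fun i => exists_support hK ⟨p 0, hp 0⟩ (u i)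
  set m : ℝ := ∑ i, u i ⬝ᵥ T i with hm
  have hmx : ∀ x : Fin 4 → V3, (∀ i, x i ∈ K) → ∑ i, u i ⬝ᵥ x i ≤ m :=
    fun x hx => Finset.sum_le_sum fun i _ => hT' i _ (hx i)
  have hneg : ∑ i, u i ⬝ᵥ p i + s * m < 0 := by
    have := h1 _ ⟨T, fun i _ => hT i, rfl⟩
    rw [hu] at this
    simp only [Pi.add_apply, Pi.smul_apply, dotProduct_add, dotProduct_smul, smul_eq_mul,
      Finset.sum_add_distrib, ← Finset.mul_sum] at this
    linarith
  have hm0 : 0 ≤ m := (Real.sqrt_nonneg _).trans (single_le hW hu0 hmx 0)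
  rcases hm0.eq_or_lt with h0 | h0
  · have hz : ∀ i, u i = 0 := by
      intro i
      have := (norm_le_sqrt_dot _).trans (single_le hW hu0 hmx i)
      rw [← h0] at this
      exact norm_le_zero_iff.1 this
    rw [← h0] at hneg
    simp [hz] at hneg
  · have := hσ (fun i => m⁻¹ • u i, p) ⟨by rw [← Finset.smul_sum, hu0, smul_zero], hp, ?_⟩
    · simp only [smul_dotProduct, smul_eq_mul, ← Finset.mul_sum] at this
      have e : ∑ i, u i ⬝ᵥ p i = m * (m⁻¹ * ∑ i, u i ⬝ᵥ p i) := by field_simp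
      nlinarith
    · intro x hx
      simp only [smul_dotProduct, smul_eq_mul, ← Finset.mul_sum]
      rw [inv_mul_le_iff₀ h0, mul_one]
      exact hmx x hx

theorem centre {K : Set V3} (hK : IsCompact K) (hc : Convex ℝ K) (hW : Wid K) {s : ℝ}
    (hs : 0 < s) (hσ : ∀ q ∈ Feas K, -∑ i, q.1 i ⬝ᵥ q.2 i ≤ s) :
    ∃ c : V3, ∀ x ∈ K, ∃ y ∈ K, c = x + s • y := by
  classical
  obtain ⟨x₀, hx₀, -⟩ := hW 0
  have key := Convex.helly_theorem_compact' (𝕜 := ℝ) (E := V3) (ι := K)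
    (F := fun x => (fun y => (x : V3) + s • y) '' K) (fun x => ?_) (fun x => ?_) (fun I hI => ?_)
  · obtain ⟨c, hc⟩ := key
    refine ⟨c, fun x hx => ?_⟩
    obtain ⟨y, hy, e⟩ := mem_iInter.1 hc ⟨x, hx⟩
    exact ⟨y, hy, e.symm⟩
  · have := (hc.smul s).translate (x : V3)
    rwa [← image_smul, image_image] at this
  · exact hK.image (by fun_prop)
  · have hI4 : I.card ≤ 4 := by simpa using hI
    obtain ⟨c, hc⟩ := four_meet hK hc hW hs hσ
      (fun j => (I.toList.getD j ⟨x₀, hx₀⟩ : K)) (fun j => Subtype.property _)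
    refine ⟨c, mem_iInter₂.2 fun x hx => ?_⟩
    obtain ⟨n, hn, e⟩ := List.getElem_of_mem (Finset.mem_toList.2 hx)
    have hn4 : n < 4 := by
      rw [Finset.length_toList] at hn
      omega
    obtain ⟨y, hy, e'⟩ := hc ⟨n, hn4⟩
    refine ⟨y, hy, ?_⟩
    rw [e']
    simp only [List.getD_eq_getElem _ _ hn, e]

/-- The reflected copy of `K` shrunk by `s` lies in `K`. -/
def Refl (K : Set V3) (s : ℝ) : Prop := ∀ x ∈ K, (-s⁻¹) • x ∈ K

/-- Four contact points with balanced normals. -/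
structure Touch (K : Set V3) (s : ℝ) (u p : Fin 4 → V3) (l : Fin 4 → ℝ) : Prop where
  bal : ∑ i, u i = 0
  mem : ∀ i, p i ∈ K
  supp : ∀ i, ∀ x ∈ K, u i ⬝ᵥ x ≤ l i
  sum : ∑ i, l i = 1
  touch : ∀ i, u i ⬝ᵥ p i = -s * l i

theorem shift {K : Set V3} (hK : IsCompact K) (hc : Convex ℝ K) (hW : Wid K) (c : V3) :
    IsCompact ((fun x => -c + x) '' K) ∧ Convex ℝ ((fun x => -c + x) '' K) ∧
      Wid ((fun x => -c + x) '' K) ∧ volume ((fun x => -c + x) '' K) = volume K := by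
  refine ⟨hK.image (by fun_prop), hc.translate _, fun u => ?_, ?_⟩
  · obtain ⟨x, hx, y, hy, h⟩ := hW u
    refine ⟨_, ⟨x, hx, rfl⟩, _, ⟨y, hy, rfl⟩, ?_⟩
    simpa using h
  · rw [image_add_left, measure_preimage_add]

theorem refl_shift {K : Set V3} {s : ℝ} (hs : 0 < s) {c : V3}
    (h : ∀ x ∈ K, ∃ y ∈ K, c = x + s • y) :
    Refl ((fun x => -((1 + s)⁻¹ • c) + x) '' K) s := by
  rintro _ ⟨x, hx, rfl⟩
  obtain ⟨y, hy, e⟩ := h x hx
  refine ⟨y, hy, ?_⟩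
  funext k
  have := congrFun e k
  simp only [Pi.add_apply, Pi.smul_apply, smul_eq_mul, Pi.neg_apply] at this ⊢
  rw [this]
  field_simp
  ring

theorem dichotomy {K : Set V3} (hK : IsCompact K) (hc : Convex ℝ K) (hW : Wid K) {s₀ : ℝ}
    (hs₀ : 0 < s₀) : ∃ K' : Set V3, IsCompact K' ∧ Convex ℝ K' ∧ Wid K' ∧ volume K' = volume K ∧
      (Refl K' s₀ ∨ ∃ s, s₀ ≤ s ∧ Refl K' s ∧ ∃ u p l, Touch K' s u p l) := by
  obtain ⟨x₀, hx₀, -⟩ := hW 0
  have hne : (Feas K).Nonempty :=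
    ⟨(0, fun _ => x₀), by simp, fun _ => hx₀, fun x _ => by simp⟩
  obtain ⟨q, hq, hmax⟩ := (feas_compact hK hW).exists_isMaxOn hne
    (f := fun q => -∑ i, q.1 i ⬝ᵥ q.2 i) (by fun_prop)
  set s : ℝ := -∑ i, q.1 i ⬝ᵥ q.2 i with hs
  rcases le_total s s₀ with h | h
  · obtain ⟨c, hc'⟩ := centre hK hc hW hs₀ fun q' hq' => (hmax hq').trans h
    obtain ⟨a1, a2, a3, a4⟩ := shift hK hc hW ((1 + s₀)⁻¹ • c)
    exact ⟨_, a1, a2, a3, a4, Or.inl (refl_shift hs₀ hc')⟩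
  · have hs0 : 0 < s := hs₀.trans_le h
    obtain ⟨c, hc'⟩ := centre hK hc hW hs0 fun q' hq' => hmax hq'
    obtain ⟨a1, a2, a3, a4⟩ := shift hK hc hW ((1 + s)⁻¹ • c)
    have hR := refl_shift hs0 hc'
    set c₀ : V3 := (1 + s)⁻¹ • c
    refine ⟨_, a1, a2, a3, a4, Or.inr ⟨s, h, hR, ?_⟩⟩
    obtain ⟨h1, h2, h3⟩ := hq
    choose T hT hT' using fun i => exists_support hK ⟨x₀, hx₀⟩ (q.1 i)
    have hc0 : ∑ i, q.1 i ⬝ᵥ c₀ = 0 := by rw [← sum_dotProduct, h1, zero_dotProduct]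
    have hsupp : ∀ i, ∀ x ∈ (fun x => -c₀ + x) '' K, q.1 i ⬝ᵥ x ≤ q.1 i ⬝ᵥ (-c₀ + T i) := by
      rintro i _ ⟨x, hx, rfl⟩
      simp only [dotProduct_add]
      linarith [hT' i x hx]
    have hsum1 : ∑ i, q.1 i ⬝ᵥ (-c₀ + T i) ≤ 1 := by
      simp only [dotProduct_add, dotProduct_neg, Finset.sum_add_distrib, Finset.sum_neg_distrib,
        hc0]
      linarith [h3 T hT]
    have hsum2 : ∑ i, q.1 i ⬝ᵥ (-c₀ + q.2 i) = -s := by
      simp only [dotProduct_add, dotProduct_neg, Finset.sum_add_distrib, Finset.sum_neg_distrib,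
        hc0, hs]
      ring
    have hle : ∀ i, 0 ≤ q.1 i ⬝ᵥ (-c₀ + q.2 i) + s * (q.1 i ⬝ᵥ (-c₀ + T i)) := by
      intro i
      have := hsupp i _ (hR _ ⟨q.2 i, h2 i, rfl⟩)
      rw [dotProduct_smul, smul_eq_mul] at this
      have e : q.1 i ⬝ᵥ (-c₀ + q.2 i) = -s * (-s⁻¹ * (q.1 i ⬝ᵥ (-c₀ + q.2 i))) := by field_simp
      nlinarith
    have htot : ∑ i, (q.1 i ⬝ᵥ (-c₀ + q.2 i) + s * (q.1 i ⬝ᵥ (-c₀ + T i))) =
        -s + s * ∑ i, q.1 i ⬝ᵥ (-c₀ + T i) := by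
      rw [Finset.sum_add_distrib, hsum2, Finset.mul_sum]
    have hge : 0 ≤ ∑ i, (q.1 i ⬝ᵥ (-c₀ + q.2 i) + s * (q.1 i ⬝ᵥ (-c₀ + T i))) :=
      Finset.sum_nonneg fun i _ => hle i
    have hone : ∑ i, q.1 i ⬝ᵥ (-c₀ + T i) = 1 := by
      refine le_antisymm hsum1 ?_
      rw [htot] at hge
      by_contra hlt
      have := mul_lt_mul_of_pos_left (not_le.1 hlt) hs0
      linarith
    have hzero : ∑ i, (q.1 i ⬝ᵥ (-c₀ + q.2 i) + s * (q.1 i ⬝ᵥ (-c₀ + T i))) = 0 := by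
      rw [htot, hone]; ring
    refine ⟨q.1, fun i => -c₀ + q.2 i, fun i => q.1 i ⬝ᵥ (-c₀ + T i), h1,
      fun i => ⟨_, h2 i, rfl⟩, hsupp, hone, fun i => ?_⟩
    have := (Finset.sum_eq_zero_iff_of_nonneg fun i _ => hle i).1 hzero i (Finset.mem_univ i)
    linarith

end Pool.Agent.MP_1e9c11_gt.H98
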