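import Pool.Agent.MP_1e9c11_gt.H81.Vol

/-! Volume of a convex body from a triangulated convex surface inside it. -/

open MeasureTheory Set Matrix

noncomputable section

namespace Pool.Agent.MP_1e9c11_gt.H98

abbrev V3 : Type := Fin 3 → ℝ

/-- The open standard simplex. -/
def S0 : Set V3 := {y | 0 < y 0 ∧ 0 < y 1 ∧ 0 < y 2 ∧ y 0 + y 1 + y 2 < 1}

theorem S0_convex : Convex ℝ S0 := by
  intro x hx y hy s t hs ht hst
  obtain ⟨h0, h1, h2, h3⟩ := hx
  obtain ⟨k0, k1, k2, k3⟩ := hy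
  have key : ∀ p q : ℝ, 0 < p → 0 < q → 0 < s * p + t * q := by
    intro p q hp hq
    rcases hs.eq_or_lt with h | h
    · have : t = 1 := by linarith
      rw [← h, this]; linarith
    · have := mul_pos h hp
      have := mul_nonneg ht hq.le
      linarith
  refine ⟨?_, ?_, ?_, ?_⟩ <;> simp only [Pi.add_apply, Pi.smul_apply, smul_eq_mul]
  · exact key _ _ h0 k0
  · exact key _ _ h1 k1
  · exact key _ _ h2 k2
  · have := key (1 - (x 0 + x 1 + x 2)) (1 - (y 0 + y 1 + y 2)) (by linarith) (by linarith)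
    nlinarith

theorem S0_vol : ENNReal.ofReal (1 / 6) ≤ volume S0 := by
  have h2 := volume_preserving_piFinSuccAbove (fun _ : Fin 3 => ℝ) 0
  have h3 := (MeasurePreserving.id (volume : Measure ℝ)).prod (volume_preserving_finTwoArrow ℝ)
  have h4 : MeasurePreserving (fun y : V3 => ((y 0, y 1, y 2) : H81.R3)) volume volume :=
    h3.comp h2
  have hm := H81.meas_Po 0 1 (l := fun _ => 0) (m := fun x => 1 - x) (by fun_prop) (by fun_prop)
  have hv := H81.vol_Po (p := 0) (q := 1) (by norm_num) (l := fun _ => 0) (m := fun x => 1 - x)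
    (by fun_prop) (by fun_prop) (fun x hx => by linarith [hx.2])
  have hi : ∫ x in (0 : ℝ)..1, ((1 - x) - 0) ^ 2 / 2 = 1 / 6 := by
    have : ∀ x : ℝ, ((1 - x) - 0) ^ 2 / 2 =
        ∑ i ∈ Finset.range 3, (fun i => if i = 0 then 1 / 2 else if i = 1 then -1 else 1 / 2) i
          * x ^ i := by
      intro x
      simp [Finset.sum_range_succ]
      ring
    simp_rw [this]
    rw [H81.int_poly]
    simp [Finset.sum_range_succ]
    norm_num
  rw [hi] at hv
  rw [← h4.measure_preimage hm.nullMeasurableSet] at hv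
  refine hv.trans (measure_mono ?_)
  rintro y ⟨h0, h1, h2, h3⟩
  simp only at h0 h1 h2 h3
  exact ⟨h0.1, h1, h2, by linarith⟩

/-- The open tetrahedron with vertices `a, b, c, d`. -/
def tet (a b c d : V3) : Set V3 :=
  (fun x => d + x) '' (Matrix.toLin' (Matrix.of ![a - d, b - d, c - d])ᵀ '' S0)

theorem tet_convex (a b c d : V3) : Convex ℝ (tet a b c d) :=
  (S0_convex.linear_image _).translate d

theorem mem_tet {a b c d x : V3} (h : x ∈ tet a b c d) :
    ∃ α β γ τ : ℝ, 0 < α ∧ 0 < β ∧ 0 < γ ∧ 0 < τ ∧ α + β + γ + τ = 1 ∧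
      x = α • a + β • b + γ • c + τ • d := by
  obtain ⟨z, ⟨y, ⟨h0, h1, h2, h3⟩, rfl⟩, rfl⟩ := h
  refine ⟨y 0, y 1, y 2, 1 - (y 0 + y 1 + y 2), h0, h1, h2, by linarith, by ring, ?_⟩
  funext i
  simp [Matrix.mulVec, dotProduct, Fin.sum_univ_three]
  ring

theorem tet_vol (a b c d : V3) :
    ENNReal.ofReal (|((b - a) ⨯₃ (c - a)) ⬝ᵥ (d - a)| / 6) ≤ volume (tet a b c d) := by
  have h1 : volume (tet a b c d) =
      volume (Matrix.toLin' (Matrix.of ![a - d, b - d, c - d])ᵀ '' S0) := by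
    rw [tet, image_add_left, measure_preimage_add]
  rw [h1, Measure.addHaar_image_linearMap, LinearMap.det_toLin', Matrix.det_transpose]
  have h2 : |(Matrix.of ![a - d, b - d, c - d]).det| = |((b - a) ⨯₃ (c - a)) ⬝ᵥ (d - a)| := by
    rw [← abs_neg]
    congr 1
    simp [Matrix.det_fin_three, cross_apply, dotProduct, Fin.sum_univ_three]
    ring
  rw [h2, div_eq_mul_one_div, ENNReal.ofReal_mul (abs_nonneg _)]
  gcongr
  exact S0_vol

theorem tet_subset {K : Set V3} (hc : Convex ℝ K) {a b c d : V3} (ha : a ∈ K) (hb : b ∈ K)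
    (hc' : c ∈ K) (hd : d ∈ K) : tet a b c d ⊆ K := by
  intro x hx
  obtain ⟨α, β, γ, τ, h1, h2, h3, h4, h5, rfl⟩ := mem_tet hx
  have := hc.sum_mem (t := Finset.univ) (w := ![α, β, γ, τ]) (z := ![a, b, c, d])
    (fun i _ => by fin_cases i <;> simp <;> linarith)
    (by simp [Fin.sum_univ_four, h5]) (fun i _ => by fin_cases i <;> simpa)
  simpa [Fin.sum_univ_four] using this

theorem exists_support {K : Set V3} (hK : IsCompact K) (hne : K.Nonempty) (u : V3) :
    ∃ x ∈ K, ∀ y ∈ K, u ⬝ᵥ y ≤ u ⬝ᵥ x := by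
  obtain ⟨x, hx, h⟩ := hK.exists_isMaxOn hne (f := fun y => u ⬝ᵥ y) (by fun_prop)
  exact ⟨x, hx, fun y hy => h hy⟩

theorem cone {ι : Type} [Fintype ι] {K : Set V3} (hK : IsCompact K) (hc : Convex ℝ K)
    (a b c N : ι → V3) (σ : ℝ) (hσ : |σ| = 1) (O : V3) (hO : O ∈ K) (ha : ∀ i, a i ∈ K)
    (hb : ∀ i, b i ∈ K) (hc' : ∀ i, c i ∈ K)
    (hN : ∀ i, N i = σ • ((b i - a i) ⨯₃ (c i - a i)))
    (hle : ∀ i j, N i ⬝ᵥ a j ≤ N i ⬝ᵥ a i ∧ N i ⬝ᵥ b j ≤ N i ⬝ᵥ a i ∧ N i ⬝ᵥ c j ≤ N i ⬝ᵥ a i)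
    (hlt : ∀ i j, i ≠ j →
      N i ⬝ᵥ a j < N i ⬝ᵥ a i ∨ N i ⬝ᵥ b j < N i ⬝ᵥ a i ∨ N i ⬝ᵥ c j < N i ⬝ᵥ a i)
    (hO' : ∀ i, N i ⬝ᵥ O ≤ N i ⬝ᵥ a i) (t : ι → V3) (ht : ∀ i, t i ∈ K) :
    ENNReal.ofReal (∑ i, N i ⬝ᵥ (t i - O) / 6) ≤ volume K := by
  classical
  choose T hT hT' using fun i => exists_support hK ⟨O, hO⟩ (N i)
  set A : ι × Bool → V3 := fun q => if q.2 then T q.1 else O with hA
  have hAK : ∀ q, A q ∈ K := by
    intro q
    simp only [hA]
    split_ifs
    · exact hT _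
    · exact hO
  set P : ι × Bool → Set V3 := fun q =>
    if N q.1 ⬝ᵥ A q = N q.1 ⬝ᵥ a q.1 then ∅ else tet (a q.1) (b q.1) (c q.1) (A q) with hP
  have hbe : ∀ i, N i ⬝ᵥ b i = N i ⬝ᵥ a i := by
    intro i
    have : N i ⬝ᵥ (b i - a i) = 0 := by
      rw [hN, smul_dotProduct, dotProduct_comm, dot_self_cross]; simp
    rw [dotProduct_sub] at this
    linarith
  have hce : ∀ i, N i ⬝ᵥ c i = N i ⬝ᵥ a i := by
    intro i
    have : N i ⬝ᵥ (c i - a i) = 0 := by
      rw [hN, smul_dotProduct, dotProduct_comm, dot_cross_self]; simp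
    rw [dotProduct_sub] at this
    linarith
  have hmem : ∀ q x, x ∈ P q → N q.1 ⬝ᵥ A q ≠ N q.1 ⬝ᵥ a q.1 ∧ ∃ τ : ℝ, 0 < τ ∧
      N q.1 ⬝ᵥ x - N q.1 ⬝ᵥ a q.1 = τ * (N q.1 ⬝ᵥ A q - N q.1 ⬝ᵥ a q.1) ∧
      ∀ j, j ≠ q.1 → N j ⬝ᵥ x - N j ⬝ᵥ a j < τ * (N j ⬝ᵥ A q - N j ⬝ᵥ a j) := by
    intro q x hx
    simp only [hP] at hx
    split_ifs at hx with h
    · exact hx.elim
    obtain ⟨α, β, γ, τ, h1, h2, h3, h4, h5, rfl⟩ := mem_tet hx
    refine ⟨h, τ, h4, ?_, ?_⟩
    · simp only [dotProduct_add, dotProduct_smul, smul_eq_mul, hbe, hce]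
      linear_combination (N q.1 ⬝ᵥ a q.1) * h5
    · intro j hj
      simp only [dotProduct_add, dotProduct_smul, smul_eq_mul]
      obtain ⟨l1, l2, l3⟩ := hle j q.1
      have e : N j ⬝ᵥ a j = (α + β + γ + τ) * (N j ⬝ᵥ a j) := by rw [h5, one_mul]
      have m1 := mul_le_mul_of_nonneg_left l1 h1.le
      have m2 := mul_le_mul_of_nonneg_left l2 h2.le
      have m3 := mul_le_mul_of_nonneg_left l3 h3.le
      rcases hlt j q.1 hj with h' | h' | h'
      · have := mul_lt_mul_of_pos_left h' h1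
        linarith
      · have := mul_lt_mul_of_pos_left h' h2
        linarith
      · have := mul_lt_mul_of_pos_left h' h3
        linarith
  have hTa : ∀ i, N i ⬝ᵥ a i ≤ N i ⬝ᵥ T i := fun i => hT' i _ (ha i)
  have hdisj : Pairwise (Function.onFun Disjoint P) := by
    rintro ⟨i, e⟩ ⟨j, e'⟩ hne
    rw [Function.onFun, Set.disjoint_left]
    intro x hx hx'
    obtain ⟨n1, τ, t1, u1, w1⟩ := hmem _ _ hx
    obtain ⟨n2, τ', t2, u2, w2⟩ := hmem _ _ hx'
    have o1 := hO' i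
    have o2 := hO' j
    have s1 := hTa i
    have s2 := hTa j
    by_cases hij : i = j
    · subst hij
      cases e <;> cases e' <;> simp only [hA, Bool.false_eq_true, if_true, if_false] at *
      · exact hne rfl
      · have p1 := mul_pos t1 (sub_pos.2 (lt_of_le_of_ne o1 n1))
        have p2 := mul_pos t2 (sub_pos.2 (lt_of_le_of_ne s1 n2.symm))
        linarith
      · have p1 := mul_pos t2 (sub_pos.2 (lt_of_le_of_ne o1 n2))
        have p2 := mul_pos t1 (sub_pos.2 (lt_of_le_of_ne s1 n1.symm))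
        linarith
      · exact hne rfl
    · have w1' := w1 j (Ne.symm hij)
      have w2' := w2 i hij
      cases e <;> cases e' <;> simp only [hA, Bool.false_eq_true, if_true, if_false] at *
      · have p1 := sub_pos.2 (lt_of_le_of_ne o1 n1)
        have p2 := sub_pos.2 (lt_of_le_of_ne o2 n2)
        have q1 : τ' < τ := by
          by_contra hh
          have := mul_le_mul_of_nonneg_right (not_lt.1 hh) p1.le
          linarith
        have := mul_lt_mul_of_pos_right q1 p2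
        linarith
      · have p1 := mul_nonneg t1.le (sub_nonneg.2 o2)
        have p2 := mul_nonneg t2.le (sub_nonneg.2 s2)
        linarith
      · have p1 := mul_nonneg t2.le (sub_nonneg.2 o1)
        have p2 := mul_nonneg t1.le (sub_nonneg.2 s1)
        linarith
      · have p1 := sub_pos.2 (lt_of_le_of_ne s1 n1.symm)
        have p2 := sub_pos.2 (lt_of_le_of_ne s2 n2.symm)
        have r1 := mul_le_mul_of_nonneg_left (hT' i _ (hT j)) t2.le
        have r2 := mul_le_mul_of_nonneg_left (hT' j _ (hT i)) t1.le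
        have q1 : τ < τ' := by
          by_contra hh
          have := mul_le_mul_of_nonneg_right (not_lt.1 hh) p1.le
          linarith
        have := mul_lt_mul_of_pos_right q1 p2
        linarith
  have hnm : ∀ q, NullMeasurableSet (P q) volume := by
    intro q
    simp only [hP]
    split_ifs
    · exact MeasurableSet.empty.nullMeasurableSet
    · exact (tet_convex _ _ _ _).nullMeasurableSet _
  have hsub : (⋃ q, P q) ⊆ K := by
    refine iUnion_subset fun q => ?_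
    simp only [hP]
    split_ifs
    · exact empty_subset _
    · exact tet_subset hc (ha _) (hb _) (hc' _) (hAK q)
  have hvol : ∀ q, ENNReal.ofReal (|N q.1 ⬝ᵥ A q - N q.1 ⬝ᵥ a q.1| / 6) ≤ volume (P q) := by
    intro q
    simp only [hP]
    split_ifs with h
    · simp [h]
    · refine le_trans (le_of_eq ?_) (tet_vol _ _ _ _)
      rw [← dotProduct_sub, hN, smul_dotProduct, smul_eq_mul, abs_mul, hσ, one_mul]
  calc ENNReal.ofReal (∑ i, N i ⬝ᵥ (t i - O) / 6)
      ≤ ENNReal.ofReal (∑ q : ι × Bool, |N q.1 ⬝ᵥ A q - N q.1 ⬝ᵥ a q.1| / 6) := by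
        apply ENNReal.ofReal_le_ofReal
        rw [Fintype.sum_prod_type]
        refine Finset.sum_le_sum fun i _ => ?_
        rw [Fintype.sum_bool]
        simp only [hA, Bool.false_eq_true, if_true, if_false]
        have e1 := le_abs_self (N i ⬝ᵥ T i - N i ⬝ᵥ a i)
        have e2 := neg_le_abs (N i ⬝ᵥ O - N i ⬝ᵥ a i)
        have e3 := hT' i _ (ht i)
        rw [dotProduct_sub]
        linarith
    _ = ∑ q : ι × Bool, ENNReal.ofReal (|N q.1 ⬝ᵥ A q - N q.1 ⬝ᵥ a q.1| / 6) :=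
        ENNReal.ofReal_sum_of_nonneg fun q _ => by positivity
    _ ≤ ∑ q : ι × Bool, volume (P q) := Finset.sum_le_sum fun q _ => hvol q
    _ = volume (⋃ q, P q) := by
        rw [measure_iUnion₀ (fun q q' h => (hdisj h).aedisjoint) hnm, tsum_fintype]
    _ ≤ volume K := measure_mono hsub

end Pool.Agent.MP_1e9c11_gt.H98
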