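import Pool.Agent.MP_1e9c11_gt.H98.Cone

/-! The gradient map of the logarithm of a sum of exponentials. -/

open MeasureTheory Set Matrix Filter

noncomputable section

namespace Pool.Agent.MP_1e9c11_gt.H98

abbrev M3 : Type := Matrix (Fin 3) (Fin 3) ℝ

/-- The functional `v ↦ a ⬝ v`. -/
def dotL (a : V3) : V3 →L[ℝ] ℝ := ∑ k, a k • ContinuousLinearMap.proj k

@[simp] theorem dotL_apply (a v : V3) : dotL a v = a ⬝ᵥ v := by
  simp [dotL, dotProduct]

theorem hasFDerivAt_dot (a y : V3) : HasFDerivAt (fun y => a ⬝ᵥ y) (dotL a) y := by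
  have := (dotL a).hasFDerivAt (x := y)
  convert this using 1
  funext v
  simp

/-- A matrix as a continuous linear map. -/
def matL (H : M3) : V3 →L[ℝ] V3 := LinearMap.toContinuousLinearMap (Matrix.toLin' H)

@[simp] theorem matL_apply (H : M3) (v : V3) : matL H v = H *ᵥ v := rfl

theorem matL_det (H : M3) : (matL H).det = H.det := by
  rw [ContinuousLinearMap.det, matL, LinearMap.coe_toContinuousLinearMap, LinearMap.det_toLin']

variable (A : Finset V3)

def zf (y : V3) : ℝ := ∑ a ∈ A, Real.exp (a ⬝ᵥ y)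

def phi (y : V3) : ℝ := Real.log (zf A y)

def wt (y a : V3) : ℝ := Real.exp (a ⬝ᵥ y - phi A y)

def gr (y : V3) : V3 := ∑ a ∈ A, wt A y a • a

def hs (y : V3) : M3 := ∑ a ∈ A, wt A y a • vecMulVec (a - gr A y) (a - gr A y)

variable {A}

theorem zf_pos (hA : A.Nonempty) (y : V3) : 0 < zf A y :=
  Finset.sum_pos (fun _ _ => Real.exp_pos _) hA

theorem wt_pos (y a : V3) : 0 < wt A y a := Real.exp_pos _

theorem wt_eq (hA : A.Nonempty) (y a : V3) : wt A y a = Real.exp (a ⬝ᵥ y) / zf A y := by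
  rw [wt, Real.exp_sub, phi, Real.exp_log (zf_pos hA y)]

theorem wt_sum (hA : A.Nonempty) (y : V3) : ∑ a ∈ A, wt A y a = 1 := by
  simp_rw [wt_eq hA]
  rw [← Finset.sum_div]
  exact div_self (zf_pos hA y).ne'

theorem le_phi (y : V3) {a : V3} (ha : a ∈ A) : a ⬝ᵥ y ≤ phi A y := by
  rw [phi, Real.le_log_iff_exp_le (zf_pos ⟨a, ha⟩ y)]
  exact Finset.single_le_sum (f := fun a => Real.exp (a ⬝ᵥ y)) (fun _ _ => (Real.exp_pos _).le) ha

theorem hasFDerivAt_phi (hA : A.Nonempty) (y : V3) :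
    HasFDerivAt (phi A) (dotL (gr A y)) y := by
  have h1 : HasFDerivAt (zf A) (∑ a ∈ A, Real.exp (a ⬝ᵥ y) • dotL a) y :=
    HasFDerivAt.fun_sum fun a _ => (hasFDerivAt_dot a y).exp
  have h2 := h1.log (zf_pos hA y).ne'
  refine HasFDerivAt.congr_fderiv (f := phi A) h2 ?_
  ext v : 1
  simp only [dotL_apply, gr, sum_dotProduct, smul_dotProduct, smul_eq_mul, wt_eq hA,
    _root_.smul_apply, _root_.sum_apply, Finset.mul_sum]
  exact Finset.sum_congr rfl fun a _ => by ring

theorem hasFDerivAt_wt (hA : A.Nonempty) (y a : V3) :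
    HasFDerivAt (fun y => wt A y a) (wt A y a • dotL (a - gr A y)) y := by
  have := ((hasFDerivAt_dot a y).sub (hasFDerivAt_phi hA y)).exp
  refine HasFDerivAt.congr_fderiv (f := fun y => wt A y a) this ?_
  ext v : 1
  simp [wt]

theorem hasFDerivAt_gr (hA : A.Nonempty) (y : V3) : HasFDerivAt (gr A) (matL (hs A y)) y := by
  have h1 : HasFDerivAt (gr A) (∑ a ∈ A, (wt A y a • dotL (a - gr A y)).smulRight a) y :=
    HasFDerivAt.fun_sum fun a _ => (hasFDerivAt_wt hA y a).smul_const a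
  convert h1 using 1
  ext v : 1
  have h0 : ∑ a ∈ A, wt A y a * ((a - gr A y) ⬝ᵥ v) = 0 := by
    simp only [sub_dotProduct, mul_sub, Finset.sum_sub_distrib, ← Finset.sum_mul, wt_sum hA]
    conv_lhs => rw [gr]
    simp only [sum_dotProduct, smul_dotProduct, smul_eq_mul]
    ring
  simp only [matL_apply, hs, Matrix.sum_mulVec, Matrix.smul_mulVec, vecMulVec_mulVec,
    _root_.sum_apply, ContinuousLinearMap.smulRight_apply,
    _root_.smul_apply, dotL_apply, smul_eq_mul, op_smul_eq_smul, smul_smul]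
  simp only [smul_sub, Finset.sum_sub_distrib, ← Finset.sum_smul, h0, zero_smul, sub_zero]

theorem continuous_phi (hA : A.Nonempty) : Continuous (phi A) :=
  continuous_iff_continuousAt.2 fun y => (hasFDerivAt_phi hA y).continuousAt

theorem continuous_gr (hA : A.Nonempty) : Continuous (gr A) :=
  continuous_iff_continuousAt.2 fun y => (hasFDerivAt_gr hA y).continuousAt

theorem continuous_hs (hA : A.Nonempty) (i j : Fin 3) : Continuous fun y => hs A y i j := by
  have h1 := continuous_phi hA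
  have h2 := continuous_gr hA
  simp only [hs, Matrix.sum_apply, Matrix.smul_apply, vecMulVec_apply, wt, smul_eq_mul,
    Pi.sub_apply]
  fun_prop

theorem gr_mem {K : Set V3} (hc : Convex ℝ K) (hA : A.Nonempty) (hAK : ∀ a ∈ A, a ∈ K) (y : V3) :
    gr A y ∈ K :=
  hc.sum_mem (fun a _ => (wt_pos y a).le) (wt_sum hA y) hAK

theorem exp_mono_mul (x y : ℝ) : 0 ≤ (Real.exp x - Real.exp y) * (x - y) := by
  rcases le_total x y with h | h
  · exact mul_nonneg_of_nonpos_of_nonpos (sub_nonpos.2 (Real.exp_le_exp.2 h)) (sub_nonpos.2 h)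
  · exact mul_nonneg (sub_nonneg.2 (Real.exp_le_exp.2 h)) (sub_nonneg.2 h)

theorem gr_sub (hA : A.Nonempty) (y y' : V3) : (gr A y - gr A y') ⬝ᵥ (y - y') =
    ∑ a ∈ A, (Real.exp (a ⬝ᵥ y - phi A y) - Real.exp (a ⬝ᵥ y' - phi A y')) *
      ((a ⬝ᵥ y - phi A y) - (a ⬝ᵥ y' - phi A y')) := by
  have e : ∀ a, (Real.exp (a ⬝ᵥ y - phi A y) - Real.exp (a ⬝ᵥ y' - phi A y')) *
      ((a ⬝ᵥ y - phi A y) - (a ⬝ᵥ y' - phi A y')) =
      wt A y a * (a ⬝ᵥ (y - y')) - wt A y' a * (a ⬝ᵥ (y - y'))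
        - (wt A y a - wt A y' a) * (phi A y - phi A y') := by
    intro a
    simp only [wt, dotProduct_sub]
    ring
  simp_rw [e]
  rw [Finset.sum_sub_distrib, ← Finset.sum_mul, Finset.sum_sub_distrib, Finset.sum_sub_distrib,
    wt_sum hA, wt_sum hA, sub_dotProduct]
  simp only [gr, sum_dotProduct, smul_dotProduct, smul_eq_mul]
  ring

theorem gr_mono (hA : A.Nonempty) (y y' : V3) : 0 ≤ (gr A y - gr A y') ⬝ᵥ (y - y') := by
  rw [gr_sub hA]
  exact Finset.sum_nonneg fun a _ => exp_mono_mul _ _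

theorem gr_strict (hA : A.Nonempty) (hsp : ∀ (w : V3) (c : ℝ), (∀ a ∈ A, a ⬝ᵥ w = c) → w = 0)
    {y y' : V3} (h : (gr A y - gr A y') ⬝ᵥ (y - y') = 0) : y = y' := by
  rw [gr_sub hA, Finset.sum_eq_zero_iff_of_nonneg fun a _ => exp_mono_mul _ _] at h
  refine sub_eq_zero.1 (hsp _ (phi A y - phi A y') fun a ha => ?_)
  rw [dotProduct_sub]
  rcases mul_eq_zero.1 (h a ha) with h1 | h1
  · have := Real.exp_injective (sub_eq_zero.1 h1)
    linarith
  · linarith

/-- The gradient of `φ(y) + t φ(-y)`. -/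
def grt (A : Finset V3) (t : ℝ) (y : V3) : V3 := gr A y - t • gr A (-y)

theorem hasFDerivAt_grt (hA : A.Nonempty) (t : ℝ) (y : V3) :
    HasFDerivAt (grt A t) (matL (hs A y + t • hs A (-y))) y := by
  have h1 := (hasFDerivAt_gr hA (-y)).comp y (hasFDerivAt_id y).neg
  have h2 := (hasFDerivAt_gr hA y).sub (h1.const_smul t)
  refine HasFDerivAt.congr_fderiv (f := grt A t) h2 ?_
  ext v : 1
  simp [Matrix.add_mulVec, Matrix.smul_mulVec, Matrix.mulVec_neg]

theorem hasFDerivAt_psi (hA : A.Nonempty) (t : ℝ) (y : V3) :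
    HasFDerivAt (fun y => phi A y + t * phi A (-y)) (dotL (grt A t y)) y := by
  have h1 := (hasFDerivAt_phi hA (-y)).comp y (hasFDerivAt_id y).neg
  have h2 := (hasFDerivAt_phi hA y).add (h1.const_mul t)
  refine HasFDerivAt.congr_fderiv (f := fun y => phi A y + t * phi A (-y)) h2 ?_
  ext v : 1
  simp [grt, sub_eq_add_neg]

theorem grt_inj (hA : A.Nonempty) (hsp : ∀ (w : V3) (c : ℝ), (∀ a ∈ A, a ⬝ᵥ w = c) → w = 0)
    {t : ℝ} (ht : 0 ≤ t) : Function.Injective (grt A t) := by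
  intro y y' h
  have h1 := gr_mono hA y y'
  have h2 := mul_nonneg ht (gr_mono hA (-y) (-y'))
  have h3 : (gr A y - gr A y') ⬝ᵥ (y - y') + t * ((gr A (-y) - gr A (-y')) ⬝ᵥ (-y - -y')) =
      (grt A t y - grt A t y') ⬝ᵥ (y - y') := by
    simp only [grt, sub_dotProduct, dotProduct_sub, smul_dotProduct, dotProduct_neg, smul_eq_mul]
    ring
  rw [h, sub_self, zero_dotProduct] at h3
  exact gr_strict hA hsp (by linarith)

theorem mem_range_of_coercive {ψ : V3 → ℝ} {F : V3 → V3}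
    (hψ : ∀ y, HasFDerivAt ψ (dotL (F y)) y) (z : V3) {c : ℝ} (hc : 0 < c)
    (h : ∀ y, c * ‖y‖ ≤ ψ y - z ⬝ᵥ y) : z ∈ range F := by
  have hd : ∀ y, HasFDerivAt (fun y => ψ y - z ⬝ᵥ y) (dotL (F y) - dotL z) y :=
    fun y => (hψ y).sub (hasFDerivAt_dot z y)
  have hcont : Continuous fun y => ψ y - z ⬝ᵥ y :=
    continuous_iff_continuousAt.2 fun y => (hd y).continuousAt
  have hlim : Tendsto (fun y => ψ y - z ⬝ᵥ y) (cocompact V3) atTop :=
    tendsto_atTop_mono h (Tendsto.const_mul_atTop hc tendsto_norm_cocompact_atTop)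
  obtain ⟨y, hy⟩ := hcont.exists_forall_le hlim
  have h0 := IsLocalMin.hasFDerivAt_eq_zero (Filter.Eventually.of_forall hy) (hd y)
  refine ⟨y, ?_⟩
  have h1 := congrArg (fun L : V3 →L[ℝ] ℝ => L (F y - z)) h0
  simp only [_root_.sub_apply, dotL_apply, _root_.zero_apply] at h1
  rw [← sub_dotProduct] at h1
  exact sub_eq_zero.1 (dotProduct_self_eq_zero.1 h1)

/-- The coefficient of `t` in `det (X + t Y)`. -/
def mix (X Y : M3) : ℝ :=
  Y 0 0 * (X 1 1 * X 2 2 - X 1 2 * X 2 1) - Y 0 1 * (X 1 0 * X 2 2 - X 1 2 * X 2 0)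
    + Y 0 2 * (X 1 0 * X 2 1 - X 1 1 * X 2 0) - Y 1 0 * (X 0 1 * X 2 2 - X 0 2 * X 2 1)
    + Y 1 1 * (X 0 0 * X 2 2 - X 0 2 * X 2 0) - Y 1 2 * (X 0 0 * X 2 1 - X 0 1 * X 2 0)
    + Y 2 0 * (X 0 1 * X 1 2 - X 0 2 * X 1 1) - Y 2 1 * (X 0 0 * X 1 2 - X 0 2 * X 1 0)
    + Y 2 2 * (X 0 0 * X 1 1 - X 0 1 * X 1 0)

theorem det_add_smul (X Y : M3) (t : ℝ) :
    (X + t • Y).det = X.det + t * mix X Y + t ^ 2 * mix Y X + t ^ 3 * Y.det := by
  simp only [Matrix.det_fin_three, Matrix.add_apply, Matrix.smul_apply, smul_eq_mul, mix]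
  ring

theorem psd_vec (w : V3) : (vecMulVec w w).PosSemidef := by
  simpa using posSemidef_vecMulVec_self_star w

theorem mix_vec_nonneg {X : M3} (hX : X.PosSemidef) (w : V3) : 0 ≤ mix X (vecMulVec w w) := by
  have h1 : ∀ t : ℝ, 0 ≤ t → 0 ≤ X.det + t * mix X (vecMulVec w w) := by
    intro t ht
    have := (hX.add ((psd_vec w).smul ht)).det_nonneg
    rw [det_add_smul] at this
    have e1 : mix (vecMulVec w w) X = 0 := by
      simp only [mix, vecMulVec_apply]; ring
    have e2 : (vecMulVec w w).det = 0 := by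
      simp only [Matrix.det_fin_three, vecMulVec_apply]; ring
    rw [e1, e2] at this
    linarith
  by_contra hneg
  have hneg := not_le.1 hneg
  have hd := hX.det_nonneg
  have := h1 ((X.det + 1) / -mix X (vecMulVec w w)) (div_nonneg (by linarith) (by linarith))
  have e : (X.det + 1) / -mix X (vecMulVec w w) * mix X (vecMulVec w w) = -(X.det + 1) := by
    have := hneg.ne
    field_simp
  linarith

theorem hs_psd (y : V3) : (hs A y).PosSemidef :=
  posSemidef_sum _ fun a _ => (psd_vec _).smul (wt_pos y a).le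

theorem mix_hs_nonneg (y y' : V3) : 0 ≤ mix (hs A y) (hs A y') := by
  have e : mix (hs A y) (hs A y') =
      ∑ a ∈ A, wt A y' a * mix (hs A y) (vecMulVec (a - gr A y') (a - gr A y')) := by
    generalize hs A y = X
    simp only [mix, hs, Matrix.sum_apply, Matrix.smul_apply, smul_eq_mul, Finset.sum_mul,
      ← Finset.sum_add_distrib, ← Finset.sum_sub_distrib]
    exact Finset.sum_congr rfl fun a _ => by ring
  rw [e]
  exact Finset.sum_nonneg fun a _ => mul_nonneg (wt_pos _ _).le (mix_vec_nonneg (hs_psd y) _)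

/-- The integral of the leading coefficient. -/
def J0 (A : Finset V3) : ENNReal := ∫⁻ y, ENNReal.ofReal (hs A y).det

/-- The integral of the mixed coefficient. -/
def J1 (A : Finset V3) : ENNReal := ∫⁻ y, ENNReal.ofReal (mix (hs A y) (hs A (-y)))

theorem meas_det (hA : A.Nonempty) : Measurable fun y => ENNReal.ofReal (hs A y).det := by
  have h := continuous_hs hA
  refine ENNReal.measurable_ofReal.comp (Continuous.measurable ?_)
  simp only [Matrix.det_fin_three]
  fun_prop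

theorem meas_mix (hA : A.Nonempty) :
    Measurable fun y => ENNReal.ofReal (mix (hs A y) (hs A (-y))) := by
  have h := continuous_hs hA
  have h' : ∀ i j, Continuous fun y : V3 => hs A (-y) i j :=
    fun i j => (h i j).comp continuous_neg
  refine ENNReal.measurable_ofReal.comp (Continuous.measurable ?_)
  simp only [mix]
  fun_prop

theorem lower_J (hA : A.Nonempty) (hsp : ∀ (w : V3) (c : ℝ), (∀ a ∈ A, a ⬝ᵥ w = c) → w = 0)
    {t : ℝ} (ht : 0 ≤ t) : J0 A + ENNReal.ofReal t * J1 A ≤ volume (range (grt A t)) := by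
  have h1 := lintegral_abs_det_fderiv_le_addHaar_image (volume : Measure V3) MeasurableSet.univ
    (fun y _ => (hasFDerivAt_grt hA t y).hasFDerivWithinAt) (grt_inj hA hsp ht).injOn
  rw [image_univ, Measure.restrict_univ] at h1
  refine le_trans ?_ h1
  rw [J0, J1, ← lintegral_const_mul _ (meas_mix hA), ← lintegral_add_left (meas_det hA)]
  refine lintegral_mono fun y => ?_
  rw [← ENNReal.ofReal_mul ht, ← ENNReal.ofReal_add (hs_psd y).det_nonneg
    (mul_nonneg ht (mix_hs_nonneg _ _))]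
  refine ENNReal.ofReal_le_ofReal (le_trans ?_ (le_abs_self _))
  rw [matL_det, det_add_smul]
  have a1 := mul_nonneg (pow_nonneg ht 2) (mix_hs_nonneg (A := A) (-y) y)
  have a2 := mul_nonneg (pow_nonneg ht 3) (hs_psd (A := A) (-y)).det_nonneg
  linarith

theorem upper_J0 (hA : A.Nonempty) : volume (range (grt A 0)) ≤ J0 A := by
  have h1 := addHaar_image_le_lintegral_abs_det_fderiv (volume : Measure V3) MeasurableSet.univ
    (fun y _ => (hasFDerivAt_grt hA 0 y).hasFDerivWithinAt)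
  rw [image_univ, Measure.restrict_univ] at h1
  refine h1.trans (le_of_eq ?_)
  refine lintegral_congr fun y => ?_
  rw [matL_det, zero_smul, add_zero, abs_of_nonneg (hs_psd y).det_nonneg]

theorem upper_J1 (hA : A.Nonempty) : volume (range (grt A 1)) ≤ 2 * J0 A + 2 * J1 A := by
  have h1 := addHaar_image_le_lintegral_abs_det_fderiv (volume : Measure V3) MeasurableSet.univ
    (fun y _ => (hasFDerivAt_grt hA 1 y).hasFDerivWithinAt)
  rw [image_univ, Measure.restrict_univ] at h1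
  refine h1.trans (le_of_eq ?_)
  have e0 : J0 A = ∫⁻ y, ENNReal.ofReal (hs A (-y)).det :=
    (lintegral_neg_eq_self (fun y => ENNReal.ofReal (hs A y).det)).symm
  have e1 : J1 A = ∫⁻ y, ENNReal.ofReal (mix (hs A (-y)) (hs A y)) := by
    rw [J1, ← lintegral_neg_eq_self]
    simp only [neg_neg]
  have m0 := meas_det hA
  have m1 := meas_mix hA
  have m2 : Measurable fun y : V3 => ENNReal.ofReal (hs A (-y)).det := m0.comp measurable_neg
  rw [two_mul, two_mul]
  nth_rewrite 2 [e0]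
  nth_rewrite 2 [e1]
  rw [J0, J1, ← lintegral_add_left m0, ← lintegral_add_left m1, ← lintegral_add_left (m0.fun_add m2)]
  refine lintegral_congr fun y => ?_
  have a0 := (hs_psd (A := A) y).det_nonneg
  have a1 := mix_hs_nonneg (A := A) y (-y)
  have a2 := mix_hs_nonneg (A := A) (-y) y
  have a3 := (hs_psd (A := A) (-y)).det_nonneg
  rw [matL_det, det_add_smul, ← ENNReal.ofReal_add a0 a3, ← ENNReal.ofReal_add a1 a2,
    ← ENNReal.ofReal_add (by linarith) (by linarith), abs_of_nonneg (by linarith)]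
  congr 1
  ring

end Pool.Agent.MP_1e9c11_gt.H98
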