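import Pool.Agent.MP_1e9c11_gt.H98.Triakis

/-! The estimate for bodies of large asymmetry. -/

open MeasureTheory Set Matrix

noncomputable section

namespace Pool.Agent.MP_1e9c11_gt.H98

theorem col_le {β : Matrix (Fin 4) (Fin 4) ℝ} (h0 : ∀ i j, 0 ≤ β i j) (hrow : ∀ i, ∑ j, β i j = 1)
    (i j : Fin 4) (hij : i ≠ j) : β i j ≤ 1 - β i i := by
  have h1 : β i i + β i j ≤ ∑ k, β i k := by
    rw [← Finset.sum_pair hij]
    exact Finset.sum_le_sum_of_subset_of_nonneg (Finset.subset_univ _) fun k _ _ => h0 i k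
  linarith [hrow i]

theorem diag_le {β : Matrix (Fin 4) (Fin 4) ℝ} (h0 : ∀ i j, 0 ≤ β i j)
    (hrow : ∀ i, ∑ j, β i j = 1) (i : Fin 4) : β i i ≤ 1 := by
  rw [← hrow i]
  exact Finset.single_le_sum (fun k _ => h0 i k) (Finset.mem_univ i)

theorem det_ne {β : Matrix (Fin 4) (Fin 4) ℝ} (h0 : ∀ i j, 0 ≤ β i j)
    (hrow : ∀ i, ∑ j, β i j = 1) (htr : 3 < ∑ i, β i i) : β.det ≠ 0 := by
  refine det_ne_zero_of_sum_col_lt_diag fun k => ?_
  have h1 : ∑ i ∈ Finset.univ.erase k, ‖β i k‖ ≤ ∑ i ∈ Finset.univ.erase k, (1 - β i i) := by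
    refine Finset.sum_le_sum fun i hi => ?_
    rw [Real.norm_of_nonneg (h0 i k)]
    exact col_le h0 hrow i k (Finset.ne_of_mem_erase hi)
  have h2 : ∑ i ∈ Finset.univ.erase k, (1 - β i i) = 3 - ∑ i, β i i + β k k := by
    rw [Finset.sum_erase_eq_sub (Finset.mem_univ k)]
    simp only [Fin.sum_univ_four]
    ring
  rw [Real.norm_of_nonneg (h0 k k)]
  linarith

theorem weight_le {β : Matrix (Fin 4) (Fin 4) ℝ} (h0 : ∀ i j, 0 ≤ β i j)
    (hrow : ∀ i, ∑ j, β i j = 1) (htr : 3 < ∑ i, β i i) (κ : Fin 4 → ℝ)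
    (hκ : ∀ j, ∑ i, κ i * β i j = β j j) (hsum : ∑ i, κ i = ∑ i, β i i) (m : Fin 4) :
    κ m ≤ 1 := by
  set x : Fin 4 → ℝ := fun i => max (-κ i) 0 with hx
  set z : Fin 4 → ℝ := fun i => max (κ i - 1) 0 with hz
  have x0 : ∀ i, 0 ≤ x i := fun i => le_max_right _ _
  have z0 : ∀ i, 0 ≤ z i := fun i => le_max_right _ _
  have hA : ∀ j, z j * β j j ≤ ∑ i, x i * (if i = j then 0 else β i j) := by
    intro j
    have e : (κ j - 1) * β j j = ∑ i, (-κ i) * (if i = j then 0 else β i j) := by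
      have : ∀ i, (-κ i) * (if i = j then 0 else β i j) =
          (if i = j then κ j * β j j else 0) - κ i * β i j := by
        intro i
        split_ifs with h
        · rw [h]; ring
        · ring
      simp_rw [this]
      rw [Finset.sum_sub_distrib, hκ j]
      simp
      ring
    have nn : ∀ i, 0 ≤ (if i = j then 0 else β i j) := fun i => by
      split_ifs
      · exact le_rfl
      · exact h0 i j
    rcases le_total (κ j - 1) 0 with h | h
    · have : z j = 0 := max_eq_right h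
      rw [this, zero_mul]
      exact Finset.sum_nonneg fun i _ => mul_nonneg (x0 i) (nn i)
    · have : z j = κ j - 1 := max_eq_left h
      rw [this, e]
      exact Finset.sum_le_sum fun i _ => mul_le_mul_of_nonneg_right (le_max_left _ _) (nn i)
  have hB : ∑ j, z j * β j j ≤ ∑ i, x i * (1 - β i i) := by
    refine (Finset.sum_le_sum fun j _ => hA j).trans (le_of_eq ?_)
    rw [Finset.sum_comm]
    refine Finset.sum_congr rfl fun i _ => ?_
    rw [← Finset.mul_sum]
    congr 1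
    have : ∀ j, (if i = j then 0 else β i j) = β i j - (if i = j then β i i else 0) := by
      intro j
      split_ifs with h
      · rw [h]; ring
      · ring
    simp_rw [this]
    rw [Finset.sum_sub_distrib, hrow i]
    simp
  have d1 := diag_le h0 hrow
  have hC : ∀ i, x i ≤ ∑ j, z j - z i := by
    intro i
    rcases le_total (-κ i) 0 with h | h
    · have : x i = 0 := max_eq_right h
      rw [this, sub_nonneg]
      exact Finset.single_le_sum (fun k _ => z0 k) (Finset.mem_univ i)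
    · have e1 : x i = -κ i := max_eq_left h
      have e2 : ∑ j ∈ Finset.univ.erase i, (κ j - 1) ≤ ∑ j ∈ Finset.univ.erase i, z j :=
        Finset.sum_le_sum fun j _ => le_max_left _ _
      rw [Finset.sum_erase_eq_sub (Finset.mem_univ i), Finset.sum_erase_eq_sub (Finset.mem_univ i),
        Finset.sum_sub_distrib] at e2
      simp only [Finset.sum_const, Finset.card_univ, Fintype.card_fin, nsmul_eq_mul] at e2
      push_cast at e2
      linarith
  have hD : ∑ i, x i * (1 - β i i) ≤ ∑ i, (∑ j, z j - z i) * (1 - β i i) :=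
    Finset.sum_le_sum fun i _ => mul_le_mul_of_nonneg_right (hC i) (sub_nonneg.2 (d1 i))
  have hE : (∑ j, z j) * (∑ i, β i i - 3) ≤ 0 := by
    have := hB.trans hD
    simp only [Fin.sum_univ_four] at this ⊢
    nlinarith
  have hF : ∑ j, z j ≤ 0 := by
    by_contra h
    have := mul_pos (not_le.1 h) (sub_pos.2 htr)
    linarith
  have hG : z m ≤ ∑ j, z j := Finset.single_le_sum (fun k _ => z0 k) (Finset.mem_univ m)
  have : κ m - 1 ≤ z m := le_max_left _ _
  linarith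

theorem minors {β : Matrix (Fin 4) (Fin 4) ℝ} (h0 : ∀ i j, 0 ≤ β i j)
    (hrow : ∀ i, ∑ j, β i j = 1) :
    4 * (∑ i, β i i - 1) - 6 ≤
      (((β 0 0 - β 1 0) + (β 0 3 - β 1 3)) * ((β 2 0 - β 3 0) + (β 2 2 - β 3 2))
        - ((β 0 0 - β 1 0) + (β 0 2 - β 1 2)) * ((β 2 0 - β 3 0) + (β 2 3 - β 3 3)))
      + (((β 0 0 - β 2 0) + (β 0 1 - β 2 1)) * ((β 3 0 - β 1 0) + (β 3 3 - β 1 3))
        - ((β 0 0 - β 2 0) + (β 0 3 - β 2 3)) * ((β 3 0 - β 1 0) + (β 3 1 - β 1 1)))
      + (((β 0 0 - β 3 0) + (β 0 2 - β 3 2)) * ((β 1 0 - β 2 0) + (β 1 1 - β 2 1))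
        - ((β 0 0 - β 3 0) + (β 0 1 - β 3 1)) * ((β 1 0 - β 2 0) + (β 1 2 - β 2 2))) := by
  have d1 := diag_le h0 hrow
  have pr : ∀ i j, i ≠ j → β i j * β j i ≤ (1 - β i i) * (1 - β j j) := fun i j h =>
    mul_le_mul (col_le h0 hrow i j h) (col_le h0 hrow j i h.symm) (h0 j i) (sub_nonneg.2 (d1 i))
  have p01 := pr 0 1 (by decide)
  have p02 := pr 0 2 (by decide)
  have p03 := pr 0 3 (by decide)
  have p12 := pr 1 2 (by decide)
  have p13 := pr 1 3 (by decide)
  have p23 := pr 2 3 (by decide)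
  have r0 := hrow 0
  have r1 := hrow 1
  have r2 := hrow 2
  have r3 := hrow 3
  simp only [Fin.sum_univ_four] at r0 r1 r2 r3 ⊢
  have e0 : β 0 0 = 1 - β 0 1 - β 0 2 - β 0 3 := by linarith
  have e1 : β 1 1 = 1 - β 1 0 - β 1 2 - β 1 3 := by linarith
  have e2 : β 2 2 = 1 - β 2 0 - β 2 1 - β 2 3 := by linarith
  have e3 : β 3 3 = 1 - β 3 0 - β 3 1 - β 3 2 := by linarith
  rw [e0, e1] at p01
  rw [e0, e2] at p02
  rw [e0, e3] at p03
  rw [e1, e2] at p12
  rw [e1, e3] at p13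
  rw [e2, e3] at p23
  rw [e0, e1, e2, e3]
  linarith

theorem dot_le_len (n z : V3) (hz : z ⬝ᵥ z ≤ 1) : n ⬝ᵥ z ≤ len n := by
  refine (le_abs_self _).trans (Real.abs_le_sqrt ?_)
  have h1 : (n ⬝ᵥ z) ^ 2 ≤ (n ⬝ᵥ n) * (z ⬝ᵥ z) := by
    simp only [dotProduct, Fin.sum_univ_three]
    nlinarith [sq_nonneg (n 0 * z 1 - n 1 * z 0), sq_nonneg (n 0 * z 2 - n 2 * z 0),
      sq_nonneg (n 1 * z 2 - n 2 * z 1)]
  have h2 : 0 ≤ n ⬝ᵥ n := Finset.sum_nonneg fun i _ => mul_self_nonneg _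
  nlinarith

theorem cross_le_one {a b : V3} (ha : a ⬝ᵥ a ≤ 1) (hb : b ⬝ᵥ b ≤ 1) :
    (a ⨯₃ b) ⬝ᵥ (a ⨯₃ b) ≤ 1 := by
  rw [cross_dot_cross, dotProduct_comm b a]
  have h1 : 0 ≤ a ⬝ᵥ a := Finset.sum_nonneg fun i _ => mul_self_nonneg _
  have h2 : 0 ≤ b ⬝ᵥ b := Finset.sum_nonneg fun i _ => mul_self_nonneg _
  nlinarith [mul_self_nonneg (a ⬝ᵥ b)]

theorem len_smul (c : ℝ) (hc : 0 ≤ c) (n : V3) : len (c • n) = c * len n := by
  rw [len, len, smul_dotProduct, dotProduct_smul, smul_eq_mul, smul_eq_mul, ← mul_assoc,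
    Real.sqrt_mul (mul_self_nonneg c), Real.sqrt_mul_self hc]

theorem zero_mem {K : Set V3} (hc : Convex ℝ K) {s : ℝ} (hs : 0 < s) (hR : Refl K s) {x : V3}
    (hx : x ∈ K) : (0 : V3) ∈ K := by
  have := hc hx (hR x hx) (a := (1 + s)⁻¹) (b := s * (1 + s)⁻¹) (by positivity) (by positivity)
    (by field_simp)
  convert this using 1
  funext k
  simp only [Pi.add_apply, Pi.smul_apply, smul_eq_mul, Pi.zero_apply]
  field_simp
  ring

theorem pair_le {K : Set V3} (hW : Wid K) {s : ℝ} {u p : Fin 4 → V3} {l : Fin 4 → ℝ}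
    (hT : Touch K s u p l) (i j k m : Fin 4) (hu : u i + u j + u k + u m = ∑ n, u n)
    (hl : l i + l j + l k + l m = ∑ n, l n) : (u i + u j) ⬝ᵥ (u i + u j) ≤ 1 := by
  obtain ⟨x, hx, y, hy, h⟩ := hW (u i + u j)
  rw [hT.bal] at hu
  rw [hT.sum] at hl
  have e : (u i + u j) ⬝ᵥ (x - y) = u i ⬝ᵥ x + u j ⬝ᵥ x + u k ⬝ᵥ y + u m ⬝ᵥ y := by
    have : (u i + u j + u k + u m) ⬝ᵥ y = 0 := by rw [hu, zero_dotProduct]
    simp only [add_dotProduct, dotProduct_sub] at this ⊢
    linarith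
  have h1 : Real.sqrt ((u i + u j) ⬝ᵥ (u i + u j)) ≤ 1 := by
    linarith [hT.supp i x hx, hT.supp j x hx, hT.supp k y hy, hT.supp m y hy]
  exact Real.sqrt_le_one.1 h1

theorem large {K : Set V3} (hK : IsCompact K) (hc : Convex ℝ K) (hW : Wid K) {s τ : ℝ}
    (hs : 2 < s) (hτ : 0 < τ) (hτ1 : τ < 1) (hτs : 2 < τ * s * (s - 1)) (hR : Refl K s)
    {u p : Fin 4 → V3} {l : Fin 4 → ℝ} (hT : Touch K s u p l) :
    ENNReal.ofReal (τ * (2 * s - 3) / (3 * s)) ≤ volume K := by
  have hs0 : 0 < s := by linarith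
  set β : Matrix (Fin 4) (Fin 4) ℝ := Matrix.of fun i j => l j - u j ⬝ᵥ p i with hβ
  have h0 : ∀ i j, 0 ≤ β i j := fun i j => sub_nonneg.2 (hT.supp j _ (hT.mem i))
  have hrow : ∀ i, ∑ j, β i j = 1 := by
    intro i
    simp only [hβ, Matrix.of_apply]
    rw [Finset.sum_sub_distrib, hT.sum, ← sum_dotProduct, hT.bal]
    simp
  have hdiag : ∀ i, β i i = (1 + s) * l i := by
    intro i
    simp only [hβ, Matrix.of_apply, hT.touch]
    ring
  have htr : ∑ i, β i i = 1 + s := by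
    simp_rw [hdiag]
    rw [← Finset.mul_sum, hT.sum, mul_one]
  have hdet := det_ne h0 hrow (by linarith)
  set P4 : Matrix (Fin 4) (Fin 4) ℝ := Matrix.of fun i => ![1, p i 0, p i 1, p i 2] with hP4
  set U4 : Matrix (Fin 4) (Fin 4) ℝ :=
    Matrix.of ![l, fun j => -u j 0, fun j => -u j 1, fun j => -u j 2] with hU4
  have hfac : β = P4 * U4 := by
    ext i j
    simp [hβ, hP4, hU4, Matrix.mul_apply, Fin.sum_univ_four, dotProduct, Fin.sum_univ_three]
    ring
  have hP4det : P4.det ≠ 0 := by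
    intro h
    rw [hfac, Matrix.det_mul, h, zero_mul] at hdet
    exact hdet rfl
  have hdt : dt (p 0) (p 1) (p 2) (p 3) = P4.det := by
    rw [Matrix.det_succ_column_zero]
    simp [hP4, Fin.sum_univ_succ, Matrix.det_fin_three, Fin.succAbove, dt, cross_apply, dotProduct]
    ring
  set κ : Fin 4 → ℝ := ![1, 0, 0, 0] ᵥ* P4⁻¹ with hκ
  have hκP : κ ᵥ* P4 = ![1, 0, 0, 0] := by
    rw [hκ, Matrix.vecMul_vecMul, Matrix.nonsing_inv_mul _ (isUnit_iff_ne_zero.2 hP4det),
      Matrix.vecMul_one]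
  have hκ1 : ∑ i, κ i = 1 := by
    have := congrFun hκP 0
    simpa [Matrix.vecMul, dotProduct, hP4] using this
  have hκp : ∑ i, κ i • p i = 0 := by
    funext k
    have := congrFun hκP k.succ
    rw [Finset.sum_apply]
    fin_cases k <;> simpa [Matrix.vecMul, dotProduct, hP4] using this
  have hκβ : ∀ j, ∑ i, κ i * β i j = l j := by
    intro j
    have e : u j ⬝ᵥ (∑ i, κ i • p i) = 0 := by rw [hκp, dotProduct_zero]
    rw [dotProduct_sum] at e
    simp only [dotProduct_smul, smul_eq_mul] at e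
    simp only [hβ, Matrix.of_apply, mul_sub, Finset.sum_sub_distrib, ← Finset.sum_mul, hκ1, e]
    ring
  have hle : ∀ m, (1 + s) * κ m ≤ 1 := by
    refine weight_le h0 hrow (by linarith) (fun i => (1 + s) * κ i) (fun j => ?_) ?_
    · simp_rw [mul_assoc]
      rw [← Finset.mul_sum, hκβ, hdiag]
    · rw [← Finset.mul_sum, hκ1, htr, mul_one]
  have hz := zero_mem hc hs0 hR (hT.mem 0)
  have l0 := hle 0
  have l1 := hle 1
  have l2 := hle 2
  have l3 := hle 3
  have k1 := hκ1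
  rw [Fin.sum_univ_four] at k1
  have k2 : (1 + s) * κ 0 + (1 + s) * κ 1 + (1 + s) * κ 2 + (1 + s) * κ 3 = 1 + s := by
    linear_combination (1 + s) * k1
  have hpos : ∀ i, 0 < κ i := by
    intro i
    have : 0 < (1 + s) * κ i := by fin_cases i <;> simp only [Fin.reduceFinMk, Fin.zero_eta, Fin.mk_one] <;> linarith
    exact (mul_pos_iff_of_pos_left (by linarith)).1 this
  have hpair : ∀ i j, i ≠ j → s - 1 ≤ (1 + s) * κ i + (1 + s) * κ j := by
    intro i j hij
    fin_cases i <;> fin_cases j <;>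
      simp only [Fin.reduceFinMk, Fin.zero_eta, Fin.mk_one] at hij ⊢ <;>
      first | exact absurd rfl hij | linarith
  have key := triakis hK hc hW (fun i => τ • p i) (fun i => (1 + τ * s) * κ i) (τ * s)
    (by positivity) (fun i => ?_) (fun i => ?_) ?_ ?_ (fun i => ?_) (fun i => ?_)
    (fun i j hij => ?_) ?_
  · refine le_trans (ENNReal.ofReal_le_ofReal ?_) key
    have e : ∀ a b c d : V3, (τ • a - τ • b) ⨯₃ (τ • c - τ • d) = (τ * τ) • ((a - b) ⨯₃ (c - d)) := by
      intro a b c d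
      rw [← smul_sub, ← smul_sub, map_smul, map_smul, LinearMap.smul_apply, smul_smul]
    simp only [e, len_smul _ (mul_self_nonneg τ)]
    have w1 := pair_le hW hT 0 1 2 3 (by rw [Fin.sum_univ_four]) (by rw [Fin.sum_univ_four])
    have w2 := pair_le hW hT 0 2 1 3 (by rw [Fin.sum_univ_four]; abel)
      (by rw [Fin.sum_univ_four]; ring)
    have w3 := pair_le hW hT 0 3 1 2 (by rw [Fin.sum_univ_four]; abel)
      (by rw [Fin.sum_univ_four]; ring)
    have nA := dot_le_len ((p 1 - p 0) ⨯₃ (p 3 - p 2)) _ (cross_le_one w3 w2)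
    have nB := dot_le_len ((p 2 - p 0) ⨯₃ (p 1 - p 3)) _ (cross_le_one w1 w3)
    have nC := dot_le_len ((p 3 - p 0) ⨯₃ (p 2 - p 1)) _ (cross_le_one w2 w1)
    have hq : ∀ a b j, (p a - p b) ⬝ᵥ u j = β b j - β a j := by
      intro a b j
      simp only [hβ, Matrix.of_apply, sub_dotProduct, dotProduct_comm (u j)]
      ring
    rw [cross_dot_cross] at nA nB nC
    simp only [dotProduct_add, hq] at nA nB nC
    have hm := minors h0 hrow
    rw [htr] at hm
    have hsum : 4 * s - 6 ≤ len ((p 1 - p 0) ⨯₃ (p 3 - p 2)) + len ((p 2 - p 0) ⨯₃ (p 1 - p 3))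
        + len ((p 3 - p 0) ⨯₃ (p 2 - p 1)) := by linarith
    rw [div_le_div_iff₀ (by positivity) (by positivity)]
    have := mul_le_mul_of_nonneg_left hsum (show 0 ≤ τ * τ * (3 * s) by positivity)
    nlinarith
  · have := hc (hT.mem i) hz (a := τ) (b := 1 - τ) hτ.le (by linarith) (by ring)
    simpa using this
  · have := hR _ (hT.mem i)
    convert this using 1
    rw [smul_smul]
    congr 1
    field_simp
  · rw [← Finset.mul_sum, hκ1, mul_one]
  · have : ∀ i, ((1 + τ * s) * κ i) • τ • p i = ((1 + τ * s) * τ) • κ i • p i := by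
      intro i
      rw [smul_smul, smul_smul]
      congr 1
      ring
    simp_rw [this]
    rw [← Finset.smul_sum, hκp, smul_zero]
  · exact mul_pos (by positivity) (hpos i)
  · have := mul_pos (mul_pos (sub_pos.2 hτ1) hs0) (hpos i)
    linarith [hle i]
  · have h1 := hpair i j hij
    have h2 : (1 + s) * 1 < (1 + s) * ((1 + τ * s) * κ i + (1 + τ * s) * κ j) := by
      have := mul_le_mul_of_nonneg_left h1 (show 0 ≤ 1 + τ * s by positivity)
      nlinarith
    exact lt_of_mul_lt_mul_left h2 (by linarith)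
  · have e : dt (τ • p 0) (τ • p 1) (τ • p 2) (τ • p 3) = τ ^ 3 * dt (p 0) (p 1) (p 2) (p 3) := by
      simp [dt, cross_apply, dotProduct, Fin.sum_univ_three]
      ring
    simp only [e, hdt]
    positivity

end Pool.Agent.MP_1e9c11_gt.H98
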