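import Pool.Agent.MP_1e9c11_gt.H98.Grad
import Pool.Agent.MP_1e9c11_gt.H98.Large

/-! The estimate for bodies of small asymmetry. -/

open MeasureTheory Set Matrix Filter
open scoped Pointwise

noncomputable section

namespace Pool.Agent.MP_1e9c11_gt.H98

theorem dot_le_norm (w y : V3) {η : ℝ} (h : ‖w‖ ≤ η) : w ⬝ᵥ y ≤ 3 * η * ‖y‖ := by
  have key : ∀ k, w k * y k ≤ η * ‖y‖ := by
    intro k
    refine (le_abs_self _).trans ?_
    rw [abs_mul]
    exact mul_le_mul ((norm_le_pi_norm w k).trans h) (norm_le_pi_norm y k) (abs_nonneg _)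
      ((norm_nonneg _).trans h)
  simp only [dotProduct, Fin.sum_univ_three]
  linarith [key 0, key 1, key 2]

theorem exists_net {K : Set V3} (hK : IsCompact K) {η : ℝ} (hη : 0 < η) :
    ∃ A : Finset V3, (∀ a ∈ A, a ∈ K) ∧
      ∀ x ∈ K, ∃ a ∈ A, ∀ y : V3, x ⬝ᵥ y - 3 * η * ‖y‖ ≤ a ⬝ᵥ y := by
  obtain ⟨T, hT, hfin, hcov⟩ := finite_cover_balls_of_compact hK hη
  refine ⟨hfin.toFinset, fun a ha => hT (hfin.mem_toFinset.1 ha), fun x hx => ?_⟩
  obtain ⟨a, ha, hxa⟩ := mem_iUnion₂.1 (hcov hx)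
  refine ⟨a, hfin.mem_toFinset.2 ha, fun y => ?_⟩
  have := dot_le_norm (x - a) y (η := η) (by
    rw [← dist_eq_norm]
    exact (Metric.mem_ball.1 hxa).le)
  rw [sub_dotProduct] at this
  linarith

theorem dot_le_mul_len (z y : V3) : z ⬝ᵥ y ≤ len z * len y := by
  have h2 : 0 ≤ z ⬝ᵥ z := Finset.sum_nonneg fun i _ => mul_self_nonneg _
  rw [len, len, ← Real.sqrt_mul h2]
  refine (le_abs_self _).trans (Real.abs_le_sqrt ?_)
  simp only [dotProduct, Fin.sum_univ_three]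
  nlinarith [sq_nonneg (z 0 * y 1 - z 1 * y 0), sq_nonneg (z 0 * y 2 - z 2 * y 0),
    sq_nonneg (z 1 * y 2 - z 2 * y 1)]

theorem norm_toLp (z : V3) : ‖(WithLp.toLp 2 z : EuclideanSpace ℝ (Fin 3))‖ = len z := by
  rw [EuclideanSpace.norm_eq, len]
  congr 1
  simp [dotProduct, sq]

theorem vol_ball (r : ℝ) (hr : 0 ≤ r) :
    volume {z : V3 | len z < r} = ENNReal.ofReal (r ^ 3 * (Real.pi * 4 / 3)) := by
  have h := (PiLp.volume_preserving_toLp (Fin 3)).measure_preimage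
    (s := Metric.ball (0 : EuclideanSpace ℝ (Fin 3)) r) measurableSet_ball.nullMeasurableSet
  rw [EuclideanSpace.volume_ball_fin_three, ← ENNReal.ofReal_pow hr,
    ← ENNReal.ofReal_mul (by positivity)] at h
  rw [← h]
  congr 1
  ext z
  simp [norm_toLp]

theorem vol_smul (K : Set V3) (c : ℝ) (hc : 0 ≤ c) :
    volume (c • K) = ENNReal.ofReal (c ^ 3) * volume K := by
  rw [Measure.addHaar_smul, abs_of_nonneg (by positivity)]
  simp

theorem small {K : Set V3} (hK : IsCompact K) (hc : Convex ℝ K) (hW : Wid K) {s t δ : ℝ}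
    (hs : 0 < s) (ht : 0 < t) (hδ : 0 < δ) (hδ1 : δ < 1) (hR : Refl K s) :
    t * ((1 - δ) ^ 3 * (Real.pi * 4 / 3)) ≤
      (2 * t + 2 * ((1 + s * t) ^ 3 - (1 - δ) ^ 3)) * (volume K).toReal := by
  set η : ℝ := δ / (12 * (1 + s)) with hη
  have hη0 : 0 < η := by positivity
  have hηs : 12 * η * (1 + s) = δ := by rw [hη]; field_simp
  have hη1 : 12 * η ≤ δ := by nlinarith
  obtain ⟨A, hAK, hnet⟩ := exists_net hK hη0
  obtain ⟨x₀, hx₀, -⟩ := hW 0
  have hA : A.Nonempty := by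
    obtain ⟨a, ha, -⟩ := hnet x₀ hx₀
    exact ⟨a, ha⟩
  have hphi : ∀ x ∈ K, ∀ y, x ⬝ᵥ y - 3 * η * ‖y‖ ≤ phi A y := by
    intro x hx y
    obtain ⟨a, ha, h⟩ := hnet x hx
    exact (h y).trans (le_phi y ha)
  have hsp : ∀ (w : V3) (c : ℝ), (∀ a ∈ A, a ⬝ᵥ w = c) → w = 0 := by
    intro w c h
    obtain ⟨x, hx, y, hy, hxy⟩ := hW w
    obtain ⟨a, ha, h1⟩ := hnet x hx
    obtain ⟨b, hb, h2⟩ := hnet y hy
    have e1 := h1 w
    have e2 := h2 (-w)
    rw [dotProduct_neg, dotProduct_neg, norm_neg, h b hb] at e2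
    rw [h a ha] at e1
    rw [dotProduct_sub, dotProduct_comm w x, dotProduct_comm w y] at hxy
    have e3 := norm_le_sqrt_dot w
    have e4 : ‖w‖ ≤ 0 := by nlinarith [norm_nonneg w]
    exact norm_le_zero_iff.1 e4
  have hsub : ∀ t : ℝ, 0 ≤ t → range (grt A t) ⊆ (1 + s * t) • K := by
    rintro t ht _ ⟨y, rfl⟩
    have h1 := hc (gr_mem hc hA hAK y) (hR _ (gr_mem hc hA hAK (-y))) (a := (1 + s * t)⁻¹)
      (b := s * t * (1 + s * t)⁻¹) (by positivity) (by positivity) (by field_simp)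
    refine ⟨_, h1, ?_⟩
    funext k
    simp only [grt, Pi.add_apply, Pi.sub_apply, Pi.smul_apply, smul_eq_mul]
    field_simp
    ring
  have hsup0 : (1 - δ) • K ⊆ range (grt A 0) := by
    rintro _ ⟨x, hx, rfl⟩
    refine mem_range_of_coercive (hasFDerivAt_psi hA 0) _ (c := η) hη0 fun y => ?_
    obtain ⟨m, hm, hm'⟩ := exists_support hK ⟨x₀, hx₀⟩ y
    obtain ⟨x1, hx1, x2, hx2, hxy⟩ := hW y
    have e1 := hphi m hm y
    have e2 := hm' x hx
    have e3 := hm' x1 hx1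
    have e4 := hm' _ (hR x2 hx2)
    have e5 := norm_le_sqrt_dot y
    rw [dotProduct_smul, smul_eq_mul] at e4
    have e6 : -(y ⬝ᵥ x2) ≤ s * (y ⬝ᵥ m) := by
      have := mul_le_mul_of_nonneg_left e4 hs.le
      have e : s * (-s⁻¹ * (y ⬝ᵥ x2)) = -(y ⬝ᵥ x2) := by field_simp
      linarith
    rw [dotProduct_sub] at hxy
    have e7 : ‖y‖ ≤ (1 + s) * (y ⬝ᵥ m) := by linarith
    have e8 : 12 * η * ‖y‖ ≤ δ * (y ⬝ᵥ m) := by
      rw [← hηs, mul_assoc (12 * η)]
      exact mul_le_mul_of_nonneg_left e7 (by positivity)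
    simp only [smul_dotProduct, smul_eq_mul, zero_mul, add_zero]
    rw [dotProduct_comm m y] at e1
    rw [dotProduct_comm x y]
    have e9 := mul_le_mul_of_nonneg_left e2 (sub_nonneg.2 hδ1.le)
    have e10 := mul_nonneg hη0.le (norm_nonneg y)
    linarith
  have hsup1 : {z : V3 | len z < 1 - δ} ⊆ range (grt A 1) := by
    intro z hz
    refine mem_range_of_coercive (hasFDerivAt_psi hA 1) _ (c := η) hη0 fun y => ?_
    obtain ⟨x1, hx1, x2, hx2, hxy⟩ := hW y
    have e1 := hphi x1 hx1 y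
    have e2 := hphi x2 hx2 (-y)
    rw [dotProduct_neg, norm_neg] at e2
    rw [dotProduct_sub, dotProduct_comm y x1, dotProduct_comm y x2] at hxy
    have e3 := dot_le_mul_len z y
    have e4 : len z * len y ≤ (1 - δ) * len y :=
      mul_le_mul_of_nonneg_right (le_of_lt hz) (Real.sqrt_nonneg _)
    have e5 : δ * ‖y‖ ≤ δ * len y := mul_le_mul_of_nonneg_left (norm_le_sqrt_dot y) hδ.le
    have e6 := mul_le_mul_of_nonneg_right hη1 (norm_nonneg y)
    have e10 := mul_nonneg hη0.le (norm_nonneg y)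
    have e7 : len y ≤ x1 ⬝ᵥ y - x2 ⬝ᵥ y := hxy
    linarith
  have hfin : volume K ≠ ⊤ := hK.measure_lt_top.ne
  have a1 : J0 A + ENNReal.ofReal t * J1 A ≤ ENNReal.ofReal ((1 + s * t) ^ 3) * volume K := by
    rw [← vol_smul K _ (by positivity)]
    exact (lower_J hA hsp ht.le).trans (measure_mono (hsub t ht.le))
  have a0 : J0 A ≤ volume K := by
    have := (lower_J hA hsp le_rfl).trans (measure_mono (hsub 0 le_rfl))
    simpa using this
  have a2 : ENNReal.ofReal ((1 - δ) ^ 3) * volume K ≤ J0 A := by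
    rw [← vol_smul K _ (by linarith)]
    exact (measure_mono hsup0).trans (upper_J0 hA)
  have a3 : ENNReal.ofReal ((1 - δ) ^ 3 * (Real.pi * 4 / 3)) ≤ 2 * J0 A + 2 * J1 A := by
    rw [← vol_ball _ (by linarith)]
    exact (measure_mono hsup1).trans (upper_J1 hA)
  have f0 : J0 A ≠ ⊤ := ne_top_of_le_ne_top hfin a0
  have f2 : ENNReal.ofReal ((1 + s * t) ^ 3) * volume K ≠ ⊤ :=
    ENNReal.mul_ne_top ENNReal.ofReal_ne_top hfin
  have f1 : J1 A ≠ ⊤ := by
    intro h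
    rw [h, ENNReal.mul_top (by simpa using ht)] at a1
    simp only [add_top, top_le_iff] at a1
    exact f2 a1
  have b0 := ENNReal.toReal_mono hfin a0
  have b1 := ENNReal.toReal_mono f2 a1
  have b2 := ENNReal.toReal_mono f0 a2
  have b3 := ENNReal.toReal_mono (ENNReal.add_ne_top.2
    ⟨ENNReal.mul_ne_top (by simp) f0, ENNReal.mul_ne_top (by simp) f1⟩) a3
  have hd : 0 ≤ 1 - δ := by linarith
  rw [ENNReal.toReal_add f0 (ENNReal.mul_ne_top ENNReal.ofReal_ne_top f1), ENNReal.toReal_mul,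
    ENNReal.toReal_mul, ENNReal.toReal_ofReal ht.le, ENNReal.toReal_ofReal (by positivity)] at b1
  rw [ENNReal.toReal_mul, ENNReal.toReal_ofReal (by positivity)] at b2
  rw [ENNReal.toReal_add (ENNReal.mul_ne_top (by simp) f0) (ENNReal.mul_ne_top (by simp) f1),
    ENNReal.toReal_mul, ENNReal.toReal_mul, ENNReal.toReal_ofReal (by positivity)] at b3
  simp only [ENNReal.toReal_ofNat] at b3
  have c0 := mul_le_mul_of_nonneg_left b0 ht.le
  have c3 := mul_le_mul_of_nonneg_left b3 ht.le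
  linarith

theorem main {K : Set V3} (hK : IsCompact K) (hc : Convex ℝ K) (hW : Wid K) :
    ENNReal.ofReal (2535 / 10000) ≤ volume K := by
  obtain ⟨K', h1, h2, h3, h4, h5⟩ := dichotomy hK hc hW (s₀ := 24204 / 10000) (by norm_num)
  rw [← h4]
  rcases h5 with h | ⟨s, hs, hR, u, p, l, hT⟩
  · have := small h1 h2 h3 (t := 1 / 10 ^ 6) (δ := 1 / 10 ^ 12) (by norm_num) (by norm_num)
      (by norm_num) (by norm_num) h
    rw [ENNReal.ofReal_le_iff_le_toReal h1.measure_lt_top.ne]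
    have hpi := Real.pi_gt_d4
    norm_num at this ⊢
    linarith
  · refine le_trans (ENNReal.ofReal_le_ofReal ?_)
      (large h1 h2 h3 (τ := 99999 / 100000) (by linarith) (by norm_num) (by norm_num)
        (by nlinarith) hR hT)
    rw [le_div_iff₀ (by linarith)]
    linarith

end Pool.Agent.MP_1e9c11_gt.H98
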