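import Pool.Agent.MP_1e9c11_gt.H98.Asym
import Pool.Agent.MP_1e9c11_gt.H81.Defs

/-! Transfer from Euclidean space to coordinate space. -/

open MeasureTheory Set Matrix

noncomputable section

namespace Pool.Agent.MP_1e9c11_gt.H98

open Pool.Agent.MP_1e9c11_gt.H81

theorem transfer {K : Set E3} (hK : IsBody K) (hw : HasWidth K 1) :
    ∃ K' : Set V3, IsCompact K' ∧ Convex ℝ K' ∧ Wid K' ∧ volume K' = volume K := by
  obtain ⟨h1, h2, h3⟩ := hK
  have hne : K.Nonempty := h3.mono interior_subset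
  refine ⟨WithLp.ofLp '' K, h1.image (PiLp.continuous_ofLp 2 _),
    h2.linear_image (WithLp.linearEquiv 2 ℝ V3).toLinearMap, fun u => ?_, ?_⟩
  · by_cases hu : u = 0
    · obtain ⟨x, hx⟩ := hne
      exact ⟨_, ⟨x, hx, rfl⟩, _, ⟨x, hx, rfl⟩, by simp [hu]⟩
    set U : E3 := WithLp.toLp 2 u with hU
    have hU0 : U ≠ 0 := fun h => hu (by simpa [hU] using congrArg WithLp.ofLp h)
    have hn : 0 < ‖U‖ := norm_pos_iff.2 hU0
    have hnorm : ‖U‖ = Real.sqrt (u ⬝ᵥ u) := by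
      rw [EuclideanSpace.norm_eq]
      congr 1
      simp [hU, dotProduct, sq]
    have h4 : 1 ≤ dirWidth K (‖U‖⁻¹ • U) :=
      hw.2 ⟨_, by rw [norm_smul, norm_inv, norm_norm, inv_mul_cancel₀ hn.ne'], rfl⟩
    have hc : IsCompact ((fun x => inner ℝ x (‖U‖⁻¹ • U)) '' K) := h1.image (by fun_prop)
    obtain ⟨x, hx, ex⟩ := hc.sSup_mem (hne.image _)
    obtain ⟨y, hy, ey⟩ := hc.sInf_mem (hne.image _)
    refine ⟨_, ⟨x, hx, rfl⟩, _, ⟨y, hy, rfl⟩, ?_⟩
    rw [dirWidth, ← ex, ← ey] at h4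
    simp only [inner_smul_right] at h4
    have e : ∀ z : E3, inner ℝ z U = u ⬝ᵥ z.ofLp := by
      intro z
      simp [hU, PiLp.inner_apply, dotProduct]
    rw [e, e, ← mul_sub, le_inv_mul_iff₀ hn, mul_one] at h4
    rw [← hnorm, dotProduct_sub]
    exact h4
  · rw [← (PiLp.volume_preserving_toLp (Fin 3)).measure_preimage
      h1.measurableSet.nullMeasurableSet]
    congr 1
    ext z
    constructor
    · rintro ⟨x, hx, rfl⟩
      exact hx
    · intro hz
      exact ⟨_, hz, rfl⟩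

end Pool.Agent.MP_1e9c11_gt.H98
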