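import Pool.Agent.MP_1e9c11_gt.H98.Asym

/-! The cone estimate for a tetrahedron with four low pyramids on its faces. -/

open MeasureTheory Set Matrix

noncomputable section

namespace Pool.Agent.MP_1e9c11_gt.H98

/-- Six times the signed volume of a tetrahedron. -/
def dt (P Q R S : V3) : ℝ := ((Q - P) ⨯₃ (R - P)) ⬝ᵥ (S - P)

theorem face0 (e1 e2 e3 : V3) (β γ δ w x y z : ℝ) :
    (e1 ⨯₃ (w • (β • e1 + (γ - 1) • e2 + δ • e3))) ⬝ᵥ (x • e1 + y • e2 + z • e3) =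
      w * ((γ - 1) * z - δ * y) * ((e1 ⨯₃ e2) ⬝ᵥ e3) := by
  simp [cross_apply, dotProduct, Fin.sum_univ_three]
  ring

theorem face (P Q R S : V3) (α β γ δ r σ : ℝ) (hr : 0 < r) (hsum : α + β + γ + δ = 1 + r)
    (hz : α • P + β • Q + γ • R + δ • S = 0) (hδ : 0 < δ) (hγ : γ < 1) (hγδ : 1 < γ + δ)
    (hσ : 0 < σ * dt P Q R S) (N : V3) (hN : N = σ • ((Q - P) ⨯₃ ((-r⁻¹) • R - P))) :
    N ⬝ᵥ Q = N ⬝ᵥ P ∧ N ⬝ᵥ R < N ⬝ᵥ P ∧ N ⬝ᵥ S < N ⬝ᵥ P ∧ N ⬝ᵥ ((-r⁻¹) • P) < N ⬝ᵥ P ∧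
      N ⬝ᵥ ((-r⁻¹) • Q) < N ⬝ᵥ P ∧ N ⬝ᵥ ((-r⁻¹) • R) = N ⬝ᵥ P ∧
      N ⬝ᵥ ((-r⁻¹) • S) < N ⬝ᵥ P := by
  have hco : ∀ k, α * P k + β * Q k + γ * R k + δ * S k = 0 := fun k => by
    simpa using congrFun hz k
  have hα : α = 1 + r - β - γ - δ := by linarith
  have hf : (-r⁻¹) • R - P = r⁻¹ • (β • (Q - P) + (γ - 1) • (R - P) + δ • (S - P)) := by
    funext k
    have := hco k
    simp only [Pi.add_apply, Pi.sub_apply, Pi.smul_apply, smul_eq_mul]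
    field_simp
    rw [hα] at this
    linear_combination -this
  have key : ∀ (X : V3) (x y z : ℝ), X - P = x • (Q - P) + y • (R - P) + z • (S - P) →
      N ⬝ᵥ X - N ⬝ᵥ P = r⁻¹ * ((γ - 1) * z - δ * y) * (σ * dt P Q R S) := by
    intro X x y z h
    rw [← dotProduct_sub, h, hN, hf, smul_dotProduct, face0, dt, smul_eq_mul]
    ring
  have hw : 0 < r⁻¹ := inv_pos.2 hr
  have neg : ∀ {X : V3} {c : ℝ}, c < 0 → N ⬝ᵥ X - N ⬝ᵥ P = r⁻¹ * c * (σ * dt P Q R S) →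
      N ⬝ᵥ X < N ⬝ᵥ P := by
    intro X c hc h
    have := mul_pos (mul_pos hw (neg_pos.2 hc)) hσ
    linarith
  refine ⟨?_, ?_, ?_, ?_, ?_, ?_, ?_⟩
  · have := key Q 1 0 0 (by simp)
    linarith
  · exact neg (by linarith) (key R 0 1 0 (by simp))
  · exact neg (by linarith) (key S 0 0 1 (by simp))
  · refine neg ?_ (key _ (r⁻¹ * β) (r⁻¹ * γ) (r⁻¹ * δ) ?_)
    · have := mul_pos hw hδ
      linarith
    · funext k
      have := hco k
      simp only [Pi.add_apply, Pi.sub_apply, Pi.smul_apply, smul_eq_mul]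
      field_simp
      rw [hα] at this
      linear_combination -this
  · refine neg ?_ (key _ (r⁻¹ * (β - 1)) (r⁻¹ * γ) (r⁻¹ * δ) ?_)
    · have := mul_pos hw hδ
      linarith
    · funext k
      have := hco k
      simp only [Pi.add_apply, Pi.sub_apply, Pi.smul_apply, smul_eq_mul]
      field_simp
      rw [hα] at this
      linear_combination -this
  · have := key _ (r⁻¹ * β) (r⁻¹ * (γ - 1)) (r⁻¹ * δ) (by rw [hf]; module)
    linear_combination this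
  · refine neg ?_ (key _ (r⁻¹ * β) (r⁻¹ * γ) (r⁻¹ * (δ - 1)) ?_)
    · have := mul_pos hw (sub_pos.2 hγδ)
      linarith
    · funext k
      have := hco k
      simp only [Pi.add_apply, Pi.sub_apply, Pi.smul_apply, smul_eq_mul]
      field_simp
      rw [hα] at this
      linear_combination -this

/-- The even permutations of four letters, listed by cosets of the four-group. -/
def I0 : Fin 12 → Fin 4 := ![0, 1, 2, 3, 0, 2, 3, 1, 0, 3, 1, 2]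
def I1 : Fin 12 → Fin 4 := ![1, 0, 3, 2, 2, 0, 1, 3, 3, 0, 2, 1]
def I2 : Fin 12 → Fin 4 := ![2, 3, 0, 1, 3, 1, 0, 2, 1, 2, 0, 3]
def I3 : Fin 12 → Fin 4 := ![3, 2, 1, 0, 1, 3, 2, 0, 2, 1, 3, 0]

theorem I_all : ∀ (F : Fin 12) (m : Fin 4), m = I0 F ∨ m = I1 F ∨ m = I2 F ∨ m = I3 F := by
  decide

theorem I_ne : ∀ F : Fin 12, I2 F ≠ I3 F := by decide

theorem I_sep : ∀ F G : Fin 12, F ≠ G →
    (I0 G = I2 F ∨ I0 G = I3 F) ∨ (I1 G = I2 F ∨ I1 G = I3 F) ∨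
      (I2 G = I0 F ∨ I2 G = I1 F ∨ I2 G = I3 F) := by
  decide

theorem I_sum {M : Type} [AddCommMonoid M] (g : Fin 4 → M) (F : Fin 12) :
    g (I0 F) + g (I1 F) + g (I2 F) + g (I3 F) = ∑ m, g m := by
  rw [Fin.sum_univ_four]
  fin_cases F <;> simp only [I0, I1, I2, I3] <;> simp <;> abel

theorem I_dt (P : Fin 4 → V3) (F : Fin 12) :
    dt (P (I0 F)) (P (I1 F)) (P (I2 F)) (P (I3 F)) = dt (P 0) (P 1) (P 2) (P 3) := by
  fin_cases F <;> simp [I0, I1, I2, I3, dt, cross_apply, dotProduct, Fin.sum_univ_three] <;> ring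

theorem quad (P Q R S x y O : V3) (σ w : ℝ) :
    (σ • ((Q - P) ⨯₃ ((-w) • R - P))) ⬝ᵥ (x - O) + (σ • ((P - Q) ⨯₃ ((-w) • S - Q))) ⬝ᵥ (x - O)
      + (σ • ((S - R) ⨯₃ ((-w) • P - R))) ⬝ᵥ (y - O)
      + (σ • ((R - S) ⨯₃ ((-w) • Q - S))) ⬝ᵥ (y - O) =
    w * ((σ • ((Q - P) ⨯₃ (S - R))) ⬝ᵥ (x - y)) := by
  simp [cross_apply, dotProduct, Fin.sum_univ_three]
  ring

/-- Euclidean length. -/
def len (u : V3) : ℝ := Real.sqrt (u ⬝ᵥ u)

theorem triakis {K : Set V3} (hK : IsCompact K) (hc : Convex ℝ K) (hW : Wid K)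
    (P : Fin 4 → V3) (κ : Fin 4 → ℝ) (r : ℝ) (hr : 0 < r) (hP : ∀ i, P i ∈ K)
    (hf : ∀ i, (-r⁻¹) • P i ∈ K) (hsum : ∑ i, κ i = 1 + r) (hz : ∑ i, κ i • P i = 0)
    (h0 : ∀ i, 0 < κ i) (h1 : ∀ i, κ i < 1) (h2 : ∀ i j, i ≠ j → 1 < κ i + κ j)
    (hd : dt (P 0) (P 1) (P 2) (P 3) ≠ 0) :
    ENNReal.ofReal ((len ((P 1 - P 0) ⨯₃ (P 3 - P 2)) + len ((P 2 - P 0) ⨯₃ (P 1 - P 3))
      + len ((P 3 - P 0) ⨯₃ (P 2 - P 1))) / (6 * r)) ≤ volume K := by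
  obtain ⟨σ, hσ1, hσ2, hσ⟩ : ∃ σ : ℝ, |σ| = 1 ∧ σ * σ = 1 ∧
      0 < σ * dt (P 0) (P 1) (P 2) (P 3) := by
    rcases lt_or_gt_of_ne hd with h | h
    · exact ⟨-1, by simp, by simp, by linarith⟩
    · exact ⟨1, by simp, by simp, by linarith⟩
  set N : Fin 12 → V3 := fun F =>
    σ • ((P (I1 F) - P (I0 F)) ⨯₃ ((-r⁻¹) • P (I2 F) - P (I0 F))) with hN
  have hface := fun F : Fin 12 => face (P (I0 F)) (P (I1 F)) (P (I2 F)) (P (I3 F))
    (κ (I0 F)) (κ (I1 F)) (κ (I2 F)) (κ (I3 F)) r σ hr ((I_sum κ F).trans hsum)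
    ((I_sum (fun i => κ i • P i) F).trans hz) (h0 _) (h1 _) (h2 _ _ (I_ne F))
    (by rw [I_dt]; exact hσ) (N F) rfl
  have hPle : ∀ F m, N F ⬝ᵥ P m ≤ N F ⬝ᵥ P (I0 F) := by
    intro F m
    obtain ⟨a1, a2, a3, -⟩ := hface F
    rcases I_all F m with h | h | h | h <;> rw [h]
    · exact a1.le
    · exact a2.le
    · exact a3.le
  have hfle : ∀ F m, N F ⬝ᵥ ((-r⁻¹) • P m) ≤ N F ⬝ᵥ P (I0 F) := by
    intro F m
    obtain ⟨-, -, -, a1, a2, a3, a4⟩ := hface F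
    rcases I_all F m with h | h | h | h <;> rw [h]
    · exact a1.le
    · exact a2.le
    · exact a3.le
    · exact a4.le
  obtain ⟨xA, hxA, yA, hyA, wA⟩ := hW (σ • ((P 1 - P 0) ⨯₃ (P 3 - P 2)))
  obtain ⟨xB, hxB, yB, hyB, wB⟩ := hW (σ • ((P 2 - P 0) ⨯₃ (P 1 - P 3)))
  obtain ⟨xC, hxC, yC, hyC, wC⟩ := hW (σ • ((P 3 - P 0) ⨯₃ (P 2 - P 1)))
  have hlen : ∀ n : V3, Real.sqrt ((σ • n) ⬝ᵥ (σ • n)) = len n := by
    intro n
    rw [smul_dotProduct, dotProduct_smul, smul_eq_mul, smul_eq_mul, ← mul_assoc, hσ2, one_mul, len]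
  rw [hlen] at wA wB wC
  have key := cone hK hc (fun F => P (I0 F)) (fun F => P (I1 F)) (fun F => (-r⁻¹) • P (I2 F)) N σ
    hσ1 (P 0) (hP 0) (fun _ => hP _) (fun _ => hP _) (fun _ => hf _) (fun _ => rfl)
    (fun F G => ⟨hPle _ _, hPle _ _, hfle _ _⟩) ?_ (fun F => hPle _ _)
    ![xA, xA, yA, yA, xB, xB, yB, yB, xC, xC, yC, yC] (fun F => by fin_cases F <;> simpa)
  · refine le_trans (ENNReal.ofReal_le_ofReal ?_) key
    have qA := quad (P 0) (P 1) (P 2) (P 3) xA yA (P 0) σ r⁻¹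
    have qB := quad (P 0) (P 2) (P 3) (P 1) xB yB (P 0) σ r⁻¹
    have qC := quad (P 0) (P 3) (P 1) (P 2) xC yC (P 0) σ r⁻¹
    have hw : 0 < r⁻¹ := inv_pos.2 hr
    have mA := mul_le_mul_of_nonneg_left wA hw.le
    have mB := mul_le_mul_of_nonneg_left wB hw.le
    have mC := mul_le_mul_of_nonneg_left wC hw.le
    simp only [Fin.sum_univ_succ, hN, I0, I1, I2, Matrix.cons_val_zero, Matrix.cons_val_succ,
      Finset.univ_eq_empty, Finset.sum_empty]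
    rw [div_mul_eq_div_div_swap, div_eq_mul_inv _ r]
    linarith
  · intro F G hFG
    obtain ⟨-, a2, a3, a4, a5, -, a7⟩ := hface F
    rcases I_sep F G hFG with (h | h) | (h | h) | h | h | h
    · left; simp only [h]; exact a2
    · left; simp only [h]; exact a3
    · right; left; simp only [h]; exact a2
    · right; left; simp only [h]; exact a3
    · right; right; simp only [h]; exact a4
    · right; right; simp only [h]; exact a5
    · right; right; simp only [h]; exact a7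

end Pool.Agent.MP_1e9c11_gt.H98
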